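import Mathlib

/-!
# Spaces of Lipschitz functions and Lipschitz free spaces
-/

set_option autoImplicit false

namespace Pool.Agent.H16.Lip

/-- `f` is a Lipschitz function with `f 0 = 0`. -/
def IsLip0 {E : Type*} [NormedAddCommGroup E] (f : E → ℝ) : Prop :=
  (∃ K : ℝ, ∀ x y, |f x - f y| ≤ K * ‖x - y‖) ∧ f 0 = 0

section

variable {E : Type*} [NormedAddCommGroup E]

theorem IsLip0.add {f g : E → ℝ} (hf : IsLip0 f) (hg : IsLip0 g) : IsLip0 (f + g) := by
  obtain ⟨⟨K, hK⟩, hf⟩ := hf
  obtain ⟨⟨L, hL⟩, hg⟩ := hg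
  refine ⟨⟨K + L, fun x y => ?_⟩, by simp [hf, hg]⟩
  calc |(f + g) x - (f + g) y| = |(f x - f y) + (g x - g y)| := by
        simp only [Pi.add_apply]; ring_nf
    _ ≤ |f x - f y| + |g x - g y| := abs_add_le _ _
    _ ≤ K * ‖x - y‖ + L * ‖x - y‖ := add_le_add (hK x y) (hL x y)
    _ = (K + L) * ‖x - y‖ := by ring

theorem IsLip0.zero : IsLip0 (0 : E → ℝ) := ⟨⟨0, fun x y => by simp⟩, rfl⟩

theorem IsLip0.smul (c : ℝ) {f : E → ℝ} (hf : IsLip0 f) : IsLip0 (c • f) := by
  obtain ⟨⟨K, hK⟩, hf⟩ := hf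
  refine ⟨⟨|c| * K, fun x y => ?_⟩, by simp [hf]⟩
  calc |(c • f) x - (c • f) y| = |c| * |f x - f y| := by
        simp only [Pi.smul_apply, smul_eq_mul]; rw [← mul_sub, abs_mul]
    _ ≤ |c| * (K * ‖x - y‖) := mul_le_mul_of_nonneg_left (hK x y) (abs_nonneg _)
    _ = |c| * K * ‖x - y‖ := by ring

end

/-- The vector space of the Lipschitz functions `f : E → ℝ` with `f 0 = 0`. -/
def lipSub (E : Type*) [NormedAddCommGroup E] : Submodule ℝ (E → ℝ) where
  carrier := {f | IsLip0 f}
  add_mem' hf hg := IsLip0.add hf hg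
  zero_mem' := IsLip0.zero
  smul_mem' c _ hf := IsLip0.smul c hf

/-- The Banach space `Lip_0(E)` of the Lipschitz functions `f : E → ℝ` with `f 0 = 0`, normed by
the Lipschitz constant (the norm is defined below). -/
def Lip0 (E : Type*) [NormedAddCommGroup E] : Type _ := lipSub E

section

variable {E : Type*} [NormedAddCommGroup E]

/-- The additive structure, used to define the normed one. -/
@[reducible] def lipAdd : AddCommGroup (Lip0 E) := (lipSub E).addCommGroup

attribute [local instance] lipAdd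

/-- The linear structure, used to define the normed one. -/
@[reducible] def lipMod : Module ℝ (Lip0 E) := (lipSub E).module

attribute [local instance] lipMod

instance : CoeFun (Lip0 E) (fun _ => E → ℝ) := ⟨fun f => f.1⟩

@[ext] theorem Lip0.ext {f g : Lip0 E} (h : ∀ x, f x = g x) : f = g := Subtype.ext (funext h)

@[simp] theorem map_zero (f : Lip0 E) : f 0 = 0 := f.2.2

/-- Build an element of `Lip_0(E)`. -/
def mkLip (f : E → ℝ) (K : ℝ) (h : ∀ x y, |f x - f y| ≤ K * ‖x - y‖) (h0 : f 0 = 0) : Lip0 E :=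
  ⟨f, ⟨K, h⟩, h0⟩

@[simp] theorem mkLip_apply (f : E → ℝ) (K : ℝ) (h : ∀ x y, |f x - f y| ≤ K * ‖x - y‖)
    (h0 : f 0 = 0) (x : E) : mkLip f K h h0 x = f x := rfl

/-- The norm of `f` is the supremum of the difference quotients. -/
noncomputable instance : Norm (Lip0 E) :=
  ⟨fun f => sSup {r : ℝ | ∃ x y : E, x ≠ y ∧ r = |f x - f y| / ‖x - y‖}⟩

theorem norm_def (f : Lip0 E) :
    ‖f‖ = sSup {r : ℝ | ∃ x y : E, x ≠ y ∧ r = |f x - f y| / ‖x - y‖} := rfl

theorem norm_nonneg' (f : Lip0 E) : 0 ≤ ‖f‖ := by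
  rw [norm_def]
  apply Real.sSup_nonneg
  rintro r ⟨x, y, -, rfl⟩
  positivity

theorem norm_le_of (f : Lip0 E) {K : ℝ} (hK : 0 ≤ K)
    (h : ∀ x y, |f x - f y| ≤ K * ‖x - y‖) : ‖f‖ ≤ K := by
  rw [norm_def]
  apply Real.sSup_le _ hK
  rintro r ⟨x, y, hxy, rfl⟩
  rw [div_le_iff₀ (norm_pos_iff.2 (sub_ne_zero.2 hxy))]
  exact h x y

theorem sub_le_norm (f : Lip0 E) (x y : E) : |f x - f y| ≤ ‖f‖ * ‖x - y‖ := by
  by_cases hxy : x = y
  · simp [hxy]
  have hpos : 0 < ‖x - y‖ := norm_pos_iff.2 (sub_ne_zero.2 hxy)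
  rw [← div_le_iff₀ hpos, norm_def]
  apply le_csSup
  · obtain ⟨⟨K, hK⟩, -⟩ := f.2
    refine ⟨K, ?_⟩
    rintro r ⟨x, y, hxy, rfl⟩
    rw [div_le_iff₀ (norm_pos_iff.2 (sub_ne_zero.2 hxy))]
    exact hK x y
  · exact ⟨x, y, hxy, rfl⟩

theorem abs_le_norm (f : Lip0 E) (x : E) : |f x| ≤ ‖f‖ * ‖x‖ := by
  have := sub_le_norm f x 0
  rwa [map_zero f, sub_zero, sub_zero] at this

theorem lipCore : NormedSpace.Core ℝ (Lip0 E) where
  norm_nonneg := norm_nonneg'
  norm_smul c f := by
    have h1 : ∀ (c : ℝ) (f : Lip0 E), ‖c • f‖ ≤ |c| * ‖f‖ := by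
      intro c f
      apply norm_le_of _ (mul_nonneg (abs_nonneg _) (norm_nonneg' f))
      intro x y
      have : (c • f) x - (c • f) y = c * (f x - f y) := by
        change c * f x - c * f y = _; ring
      rw [this, abs_mul, mul_assoc]
      exact mul_le_mul_of_nonneg_left (sub_le_norm f x y) (abs_nonneg _)
    rw [Real.norm_eq_abs]
    apply le_antisymm (h1 c f)
    by_cases hc : c = 0
    · subst hc
      simpa using norm_nonneg' _
    have h2 := h1 c⁻¹ (c • f)
    rw [smul_smul, inv_mul_cancel₀ hc, one_smul, abs_inv] at h2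
    have hc' : 0 < |c| := abs_pos.2 hc
    calc |c| * ‖f‖ ≤ |c| * (|c|⁻¹ * ‖c • f‖) := mul_le_mul_of_nonneg_left h2 hc'.le
      _ = ‖c • f‖ := by rw [← mul_assoc, mul_inv_cancel₀ hc'.ne', one_mul]
  norm_triangle f g := by
    apply norm_le_of _ (add_nonneg (norm_nonneg' f) (norm_nonneg' g))
    intro x y
    have : (f + g) x - (f + g) y = (f x - f y) + (g x - g y) := by
      change f x + g x - (f y + g y) = _; ring
    rw [this, add_mul]
    exact (abs_add_le _ _).trans (add_le_add (sub_le_norm f x y) (sub_le_norm g x y))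
  norm_eq_zero_iff f := by
    constructor
    · intro h
      ext x
      have := abs_le_norm f x
      rw [h, zero_mul] at this
      exact abs_eq_zero.1 (le_antisymm this (abs_nonneg _))
    · rintro rfl
      apply le_antisymm _ (norm_nonneg' _)
      exact norm_le_of _ le_rfl (fun x y => by
        change |(0:ℝ) - 0| ≤ _
        simp)

noncomputable instance : NormedAddCommGroup (Lip0 E) := NormedAddCommGroup.ofCore lipCore

noncomputable instance : NormedSpace ℝ (Lip0 E) := NormedSpace.ofCore lipCore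

end

section

variable {E : Type*} [NormedAddCommGroup E]

@[simp] theorem add_apply (f g : Lip0 E) (x : E) : (f + g) x = f x + g x := rfl

@[simp] theorem sub_apply (f g : Lip0 E) (x : E) : (f - g) x = f x - g x := rfl

@[simp] theorem zero_apply (x : E) : (0 : Lip0 E) x = 0 := rfl

@[simp] theorem smul_apply (c : ℝ) (f : Lip0 E) (x : E) : (c • f) x = c * f x := rfl

theorem abs_le_norm' (x : E) (f : Lip0 E) : ‖f x‖ ≤ ‖x‖ * ‖f‖ := by
  rw [mul_comm]; exact abs_le_norm f x

/-- Evaluation at the point `x`, a linear map. -/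
def evalL (x : E) : Lip0 E →ₗ[ℝ] ℝ where
  toFun f := f x
  map_add' _ _ := rfl
  map_smul' _ _ := rfl

/-- Evaluation at the point `x`, an element of the dual of `Lip_0(E)`. -/
noncomputable def delta (x : E) : StrongDual ℝ (Lip0 E) :=
  (evalL x).mkContinuous ‖x‖ (abs_le_norm' x)

@[simp] theorem delta_apply (x : E) (f : Lip0 E) : delta x f = f x := rfl

theorem norm_delta_sub (x y : E) : ‖delta x - delta y‖ ≤ ‖x - y‖ := by
  apply ContinuousLinearMap.opNorm_le_bound _ (norm_nonneg _)
  intro f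
  rw [mul_comm]
  exact sub_le_norm f x y

theorem delta_zero : delta (0 : E) = 0 := by
  ext f
  exact map_zero f

variable (E) in
/-- The linear span of the evaluations in the dual of `Lip_0(E)`, closed. -/
noncomputable def freeSub : Submodule ℝ (StrongDual ℝ (Lip0 E)) :=
  (Submodule.span ℝ (Set.range (delta (E := E)))).topologicalClosure

theorem delta_mem (x : E) : delta x ∈ freeSub E :=
  Submodule.le_topologicalClosure _ (Submodule.subset_span ⟨x, rfl⟩)

end

/-- The Lipschitz free space `F(E)`: the closed linear span of the evaluations `delta x` in the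
dual space of `Lip_0(E)`, with the dual norm. -/
def Free (E : Type*) [NormedAddCommGroup E] : Type _ := freeSub E

section

variable {E : Type*} [NormedAddCommGroup E]

noncomputable instance : NormedAddCommGroup (Free E) := (freeSub E).normedAddCommGroup

noncomputable instance : NormedSpace ℝ (Free E) := (freeSub E).normedSpace

/-- The inclusion of the free space in the dual of `Lip_0(E)`. -/
noncomputable def incl : Free E →L[ℝ] StrongDual ℝ (Lip0 E) := (freeSub E).subtypeL

theorem norm_incl (m : Free E) : ‖incl m‖ = ‖m‖ := rfl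

theorem incl_injective : Function.Injective (incl (E := E)) := Subtype.val_injective

/-- The point evaluations as elements of the free space. -/
noncomputable def fdelta (x : E) : Free E := ⟨delta x, delta_mem x⟩

@[simp] theorem incl_fdelta (x : E) : incl (fdelta x) = delta x := rfl

theorem ofDual_aux (L : StrongDual ℝ (Free E)) (x y : E) :
    |L (fdelta x) - L (fdelta y)| ≤ ‖L‖ * ‖x - y‖ := by
  rw [← L.map_sub]
  refine (L.le_opNorm _).trans ?_
  exact mul_le_mul_of_nonneg_left (norm_delta_sub x y) (norm_nonneg _)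

theorem fdelta_zero : fdelta (0 : E) = 0 := incl_injective delta_zero

/-- A functional on the free space as a Lipschitz function. -/
noncomputable def ofDual : StrongDual ℝ (Free E) →L[ℝ] Lip0 E :=
  LinearMap.mkContinuous
    { toFun := fun L => mkLip (fun x => L (fdelta x)) ‖L‖ (ofDual_aux L) (by
        rw [fdelta_zero, L.map_zero])
      map_add' := fun _ _ => rfl
      map_smul' := fun _ _ => rfl } 1 (fun L => by
        rw [one_mul]
        exact norm_le_of _ (norm_nonneg _) (ofDual_aux L))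

@[simp] theorem ofDual_apply (L : StrongDual ℝ (Free E)) (x : E) :
    ofDual L x = L (fdelta x) := rfl

theorem norm_ofDual_le (L : StrongDual ℝ (Free E)) : ‖ofDual L‖ ≤ ‖L‖ :=
  norm_le_of _ (norm_nonneg _) (ofDual_aux L)

theorem ofDual_surjective : Function.Surjective (ofDual (E := E)) := by
  intro f
  refine ⟨(ContinuousLinearMap.apply ℝ ℝ f).comp incl, ?_⟩
  ext x
  rfl

end

/-- The normed space `X` contains the spaces `l_∞^n` uniformly. -/
def ContainsLinf (X : Type*) [NormedAddCommGroup X] [NormedSpace ℝ X] : Prop :=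
  ∃ C : ℝ, ∀ n : ℕ, ∃ u : Fin n → X, ∀ a : Fin n → ℝ,
    ‖a‖ ≤ ‖∑ i, a i • u i‖ ∧ ‖∑ i, a i • u i‖ ≤ C * ‖a‖

/-- The Banach space `l_1` of the absolutely summable real sequences, Mathlib's `lp` for `p = 1`. -/
def L1 : Type := lp (fun _ : ℕ => ℝ) 1

noncomputable instance : NormedAddCommGroup L1 := lp.normedAddCommGroup

noncomputable instance : NormedSpace ℝ L1 := lp.instNormedSpace

/-- There is a continuous linear surjection from `Lip_0(E)` onto `l_1`. -/
def MapsOntoL1 (E : Type*) [NormedAddCommGroup E] : Prop :=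
  ∃ T : Lip0 E →L[ℝ] L1, Function.Surjective T

end Pool.Agent.H16.Lip
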