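import Pool.Agent.H16.Lip.Defs

/-!
# McShane extension, and free spaces with uniform copies of `l_∞^n`: finitely supported form
-/

set_option autoImplicit false

open Set

namespace Pool.Agent.H16.Lip

variable {E : Type*} [NormedAddCommGroup E]

/-- McShane extension for indexed families of points. -/
theorem mcshane {I : Type*} (p : I → E) (v : I → ℝ) {L : ℝ} (hL : 0 ≤ L)
    (h : ∀ a b, |v a - v b| ≤ L * ‖p a - p b‖) :
    ∃ g : E → ℝ, (∀ x y, |g x - g y| ≤ L * ‖x - y‖) ∧ ∀ a, g (p a) = v a := by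
  classical
  set f : E → ℝ := fun x => if hx : ∃ a, p a = x then v hx.choose else 0 with hf
  have hfp : ∀ a, f (p a) = v a := by
    intro a
    have hx : ∃ b, p b = p a := ⟨a, rfl⟩
    have h1 : f (p a) = v hx.choose := by rw [hf]; exact dif_pos hx
    have h2 := h hx.choose a
    rw [hx.choose_spec, sub_self, norm_zero, mul_zero] at h2
    rw [h1]
    exact sub_eq_zero.1 (abs_eq_zero.1 (le_antisymm h2 (abs_nonneg _)))
  have hlip : LipschitzOnWith ⟨L, hL⟩ f (range p) := by
    apply LipschitzOnWith.of_dist_le_mul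
    rintro _ ⟨a, rfl⟩ _ ⟨b, rfl⟩
    rw [hfp, hfp, Real.dist_eq, dist_eq_norm]
    exact h a b
  obtain ⟨g, hg, hgf⟩ := hlip.extend_real
  refine ⟨g, fun x y => ?_, fun a => ?_⟩
  · have := hg.dist_le_mul x y
    rwa [Real.dist_eq, dist_eq_norm] at this
  · rw [← hgf (mem_range_self a), hfp]

/-- The value of the molecule `m` at `f`. -/
noncomputable def mol (m : E →₀ ℝ) (f : E → ℝ) : ℝ := m.sum fun x a => a * f x

/-- Uniform copies of `l_∞^n` in the free space, finitely supported form. -/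
def Mol (E : Type*) [NormedAddCommGroup E] : Prop :=
  ∃ C K : ℝ, ∀ n : ℕ, ∃ (m : Fin n → (E →₀ ℝ)) (g : Fin n → Lip0 E), (∀ j, ‖g j‖ ≤ K) ∧
    (∀ i j, mol (m i) (g j) = if i = j then 1 else 0) ∧
    ∀ f : Lip0 E, ∑ i, |mol (m i) f| ≤ C * ‖f‖

/-- The combination of evaluations. -/
noncomputable def molF (m : E →₀ ℝ) : Free E := m.sum fun x a => a • fdelta x

theorem incl_molF (m : E →₀ ℝ) (f : Lip0 E) : incl (molF m) f = mol m f := by
  unfold molF mol
  rw [Finsupp.sum, Finsupp.sum, _root_.map_sum, _root_.sum_apply]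
  refine Finset.sum_congr rfl fun x _ => ?_
  rw [_root_.map_smul, incl_fdelta, _root_.smul_apply, delta_apply, smul_eq_mul]

theorem dual_molF (m : E →₀ ℝ) (L : StrongDual ℝ (Free E)) : L (molF m) = mol m (ofDual L) := by
  unfold molF mol
  rw [Finsupp.sum, Finsupp.sum, _root_.map_sum]
  refine Finset.sum_congr rfl fun x _ => ?_
  rw [_root_.map_smul, ofDual_apply, smul_eq_mul]

/-- The combinations of evaluations are dense. -/
theorem exists_molF (u : Free E) {ε : ℝ} (hε : 0 < ε) : ∃ m : E →₀ ℝ, ‖u - molF m‖ < ε := by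
  have h1 : (u.1 : StrongDual ℝ (Lip0 E)) ∈
      closure (Submodule.span ℝ (Set.range (delta (E := E))) : Set (StrongDual ℝ (Lip0 E))) :=
    u.2
  rw [Metric.mem_closure_iff] at h1
  obtain ⟨w, hw, hd⟩ := h1 ε hε
  obtain ⟨c, hc⟩ := (Finsupp.mem_span_range_iff_exists_finsupp).1 hw
  refine ⟨c, ?_⟩
  have h2 : incl (molF c) = w := by
    rw [← hc]
    unfold molF
    rw [Finsupp.sum, Finsupp.sum, _root_.map_sum]
    refine Finset.sum_congr rfl fun x _ => ?_
    rw [_root_.map_smul, incl_fdelta]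
  rw [← norm_incl, _root_.map_sub, h2]
  rwa [dist_eq_norm] at hd

theorem mol_of_containsLinf (h : ContainsLinf (Free E)) : Mol E := by
  classical
  obtain ⟨C, hC⟩ := h
  refine ⟨C + 1, 2, fun n => ?_⟩
  obtain ⟨u, hu⟩ := hC n
  have hex : ∀ i : Fin n, ∃ m : E →₀ ℝ, ‖u i - molF m‖ < 1 / (2 * (n + 1)) :=
    fun i => exists_molF _ (by positivity)
  choose m hm using hex
  have hdiff : ∀ a : Fin n → ℝ, ‖∑ i, a i • u i - ∑ i, a i • molF (m i)‖ ≤ ‖a‖ / 2 := by
    intro a
    rw [← Finset.sum_sub_distrib]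
    calc ‖∑ i, (a i • u i - a i • molF (m i))‖
        ≤ ∑ i : Fin n, ‖a i • u i - a i • molF (m i)‖ := norm_sum_le _ _
      _ ≤ ∑ _i : Fin n, ‖a‖ * (1 / (2 * (n + 1))) := by
          refine Finset.sum_le_sum fun i _ => ?_
          rw [← smul_sub, norm_smul]
          exact mul_le_mul (norm_le_pi_norm a i) (hm i).le (norm_nonneg _) (norm_nonneg _)
      _ = ‖a‖ / 2 * (n / (n + 1)) := by
          rw [Finset.sum_const, Finset.card_univ, Fintype.card_fin, nsmul_eq_mul]
          field_simp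
      _ ≤ ‖a‖ / 2 * 1 := by
          apply mul_le_mul_of_nonneg_left _ (by positivity)
          rw [div_le_one (by positivity)]; linarith
      _ = ‖a‖ / 2 := mul_one _
  have hlow : ∀ a : Fin n → ℝ, ‖a‖ ≤ 2 * ‖∑ i, a i • molF (m i)‖ := by
    intro a
    have h1 := (hu a).1
    have h2 := hdiff a
    have h3 : ‖∑ i, a i • u i‖ ≤ ‖∑ i, a i • molF (m i)‖ +
        ‖∑ i, a i • u i - ∑ i, a i • molF (m i)‖ := by
      have := norm_add_le (∑ i, a i • molF (m i)) (∑ i, a i • u i - ∑ i, a i • molF (m i))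
      rwa [add_sub_cancel] at this
    linarith
  have hup : ∀ a : Fin n → ℝ, ‖∑ i, a i • molF (m i)‖ ≤ (C + 1) * ‖a‖ := by
    intro a
    have h1 := (hu a).2
    have h2 := hdiff a
    have h3 : ‖∑ i, a i • molF (m i)‖ ≤ ‖∑ i, a i • u i‖ +
        ‖∑ i, a i • u i - ∑ i, a i • molF (m i)‖ := by
      have := norm_sub_le (∑ i, a i • u i) (∑ i, a i • u i - ∑ i, a i • molF (m i))
      rwa [sub_sub_cancel] at this
    have := norm_nonneg a
    linarith
  -- the linear map
  let A : (Fin n → ℝ) →ₗ[ℝ] Free E :=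
    { toFun := fun a => ∑ i, a i • molF (m i)
      map_add' := fun a b => by simp [add_smul, Finset.sum_add_distrib]
      map_smul' := fun c a => by
        simp only [Pi.smul_apply, smul_eq_mul, RingHom.id_apply, Finset.smul_sum, mul_smul] }
  have hA : ∀ a, A a = ∑ i, a i • molF (m i) := fun _ => rfl
  have hinj : Function.Injective A := by
    rw [← LinearMap.ker_eq_bot, LinearMap.ker_eq_bot']
    intro a ha
    have := hlow a
    rw [← hA, ha, norm_zero, mul_zero] at this
    exact norm_le_zero_iff.1 this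
  set e := LinearEquiv.ofInjective A hinj with he
  have hg : ∀ j : Fin n, ∃ L : StrongDual ℝ (Free E), ‖L‖ ≤ 2 ∧
      ∀ i, L (molF (m i)) = if i = j then 1 else 0 := by
    intro j
    let φ : LinearMap.range A →L[ℝ] ℝ :=
      LinearMap.mkContinuous ((LinearMap.proj j : (Fin n → ℝ) →ₗ[ℝ] ℝ) ∘ₗ (e.symm : _ →ₗ[ℝ] _)) 2
        (fun w => by
          obtain ⟨a, ha⟩ : ∃ a, e a = w := ⟨e.symm w, e.apply_symm_apply w⟩
          have hw : ‖w‖ = ‖A a‖ := by rw [← ha]; rfl
          rw [hw, ← ha]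
          simp only [LinearMap.comp_apply, LinearEquiv.coe_coe, LinearEquiv.symm_apply_apply,
            LinearMap.proj_apply]
          exact (norm_le_pi_norm a j).trans (hlow a))
    have hφ : ∀ a, φ (e a) = a j := by
      intro a
      change (e.symm (e a)) j = _
      rw [LinearEquiv.symm_apply_apply]
    have hφn : ‖φ‖ ≤ 2 := LinearMap.mkContinuous_norm_le _ (by positivity) _
    obtain ⟨L, hL, hLn⟩ := exists_extension_norm_eq (LinearMap.range A) φ
    refine ⟨L, hLn.le.trans hφn, fun i => ?_⟩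
    have h1 := hL (e (Pi.single i 1))
    rw [hφ] at h1
    have h2 : ((e (Pi.single i 1) : LinearMap.range A) : Free E) = molF (m i) := by
      change A (Pi.single i 1) = _
      rw [hA, Finset.sum_eq_single i]
      · simp
      · intro k _ hk
        simp [hk]
      · simp
    rw [h2] at h1
    rw [h1]
    by_cases hij : i = j
    · subst hij; simp
    · rw [Pi.single_eq_of_ne (Ne.symm hij), if_neg hij]
  choose L hL1 hL2 using hg
  refine ⟨m, fun j => ofDual (L j), fun j => (norm_ofDual_le _).trans (hL1 j), fun i j => ?_,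
    fun f => ?_⟩
  · rw [← dual_molF, hL2]
  · set a : Fin n → ℝ := fun i => if 0 ≤ mol (m i) f then 1 else -1 with ha
    have ha1 : ‖a‖ ≤ 1 := by
      apply (pi_norm_le_iff_of_nonneg zero_le_one).2
      intro i
      rw [ha]
      dsimp only
      split_ifs <;> simp
    have h1 : ∑ i, |mol (m i) f| = incl (∑ i, a i • molF (m i)) f := by
      rw [_root_.map_sum, _root_.sum_apply]
      refine Finset.sum_congr rfl fun i _ => ?_
      rw [_root_.map_smul, _root_.smul_apply, incl_molF, smul_eq_mul]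
      by_cases h : 0 ≤ mol (m i) f
      · simp [ha, h, abs_of_nonneg]
      · simp [ha, h, abs_of_neg (not_le.1 h)]
    rw [h1]
    have hC1 : 0 ≤ C + 1 := by
      by_contra hcon
      have h2 := hup (fun _ => 1)
      have h3 := (hu (fun _ => 1)).2
      have h4 := (hu (fun _ => 1)).1
      rcases Nat.eq_zero_or_pos n with rfl | hn
      · exact hcon (by
          obtain ⟨u1, hu1⟩ := hC 1
          have h5 := (hu1 (fun _ => 1)).1.trans (hu1 (fun _ => 1)).2
          have h6 : ‖(fun _ => 1 : Fin 1 → ℝ)‖ = 1 := by simp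
          rw [h6] at h5
          linarith)
      · haveI : Nonempty (Fin n) := ⟨⟨0, hn⟩⟩
        have h6 : ‖(fun _ => 1 : Fin n → ℝ)‖ = 1 := by simp
        rw [h6] at h3 h4
        linarith
    calc incl (∑ i, a i • molF (m i)) f ≤ ‖incl (∑ i, a i • molF (m i))‖ * ‖f‖ :=
          (le_abs_self _).trans ((incl (∑ i, a i • molF (m i))).le_opNorm f)
      _ ≤ (C + 1) * ‖f‖ := by
          apply mul_le_mul_of_nonneg_right _ (norm_nonneg _)
          rw [norm_incl]
          refine (hup a).trans ?_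
          calc (C + 1) * ‖a‖ ≤ (C + 1) * 1 := mul_le_mul_of_nonneg_left ha1 hC1
            _ = C + 1 := mul_one _

end Pool.Agent.H16.Lip
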