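import Pool.Agent.H16.Lip.Ext

/-!
# Uniform copies of `l_∞^n` in the free space give a quotient `l_1` of `Lip_0(E)`
-/

set_option autoImplicit false

open Set Filter
open scoped Topology

namespace Pool.Agent.H16.Lip

variable {E : Type*} [NormedAddCommGroup E]

omit [NormedAddCommGroup E] in
lemma mol_congr (m : E →₀ ℝ) {f g : E → ℝ} (h : ∀ x ∈ m.support, f x = g x) :
    mol m f = mol m g := by
  unfold mol Finsupp.sum
  exact Finset.sum_congr rfl fun x hx => by dsimp only; rw [h x hx]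

omit [NormedAddCommGroup E] in
lemma mol_add (m : E →₀ ℝ) (f g : E → ℝ) : mol m (fun x => f x + g x) = mol m f + mol m g := by
  unfold mol Finsupp.sum
  rw [← Finset.sum_add_distrib]
  exact Finset.sum_congr rfl fun x _ => by ring

omit [NormedAddCommGroup E] in
lemma mol_mul (m : E →₀ ℝ) (c : ℝ) (f : E → ℝ) : mol m (fun x => c * f x) = c * mol m f := by
  unfold mol Finsupp.sum
  rw [Finset.mul_sum]
  exact Finset.sum_congr rfl fun x _ => by ring

omit [NormedAddCommGroup E] in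
lemma mol_sum {I : Type*} (s : Finset I) (m : E →₀ ℝ) (c : I → ℝ) (f : I → E → ℝ) :
    mol m (fun x => ∑ i ∈ s, c i * f i x) = ∑ i ∈ s, c i * mol m (f i) := by
  unfold mol Finsupp.sum
  simp only [Finset.mul_sum]
  rw [Finset.sum_comm]
  exact Finset.sum_congr rfl fun i _ => Finset.sum_congr rfl fun x _ => by ring

/-- The translate of a Lipschitz function. -/
noncomputable def shift (z : E) (f : Lip0 E) : Lip0 E :=
  mkLip (fun x => f (z + x) - f z) ‖f‖ (fun x y => by
    have := sub_le_norm f (z + x) (z + y)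
    rw [add_sub_add_left_eq_sub] at this
    rwa [sub_sub_sub_cancel_right]) (by simp)

lemma shift_apply (z : E) (f : Lip0 E) (x : E) : shift z f x = f (z + x) - f z := rfl

lemma norm_shift_le (z : E) (f : Lip0 E) : ‖shift z f‖ ≤ ‖f‖ :=
  norm_le_of _ (norm_nonneg _) (fun x y => by
    have := sub_le_norm f (z + x) (z + y)
    rw [add_sub_add_left_eq_sub] at this
    rwa [shift_apply, shift_apply, sub_sub_sub_cancel_right])

lemma exists_ultra (a : ℕ → ℝ) {B : ℝ} (h : ∀ n, |a n| ≤ B) :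
    ∃ l, Tendsto a (hyperfilter ℕ) (𝓝 l) := by
  have hc : IsCompact (Icc (-B) B) := isCompact_Icc
  have hle : ((hyperfilter ℕ).map a : Filter ℝ) ≤ 𝓟 (Icc (-B) B) := by
    rw [le_principal_iff]
    exact Filter.mem_map.2 (univ_mem' fun n => abs_le.1 (h n))
  obtain ⟨l, -, hl⟩ := hc.ultrafilter_le_nhds _ hle
  exact ⟨l, hl⟩

theorem exists_of_mol [NormedSpace ℝ E] (h : Mol E) :
    ∃ T : Lip0 E →L[ℝ] lp (fun _ : ℕ => ℝ) 1, Function.Surjective T := by
  classical
  obtain ⟨C, K, hCK⟩ := h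
  choose m g hg hmg hm using hCK
  -- a unit vector
  obtain ⟨e, he⟩ : ∃ e : E, ‖e‖ = 1 := by
    have h1 := hmg 1 0 0
    simp only [if_true] at h1
    have h2 : ∃ x : E, x ≠ 0 := by
      by_contra hcon
      push Not at hcon
      have h3 : mol (m 1 0) (g 1 0) = mol (m 1 0) (fun _ => 0) :=
        mol_congr _ fun x _ => by rw [hcon x, map_zero]
      rw [h3] at h1
      simp [mol] at h1
    obtain ⟨x, hx⟩ := h2
    exact ⟨‖x‖⁻¹ • x, norm_smul_inv_norm hx⟩
  -- nonnegative constants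
  set K' : ℝ := max K 0 with hK'
  have hK'0 : 0 ≤ K' := le_max_right _ _
  have hgK : ∀ n j, ‖g n j‖ ≤ K' := fun n j => (hg n j).trans (le_max_left _ _)
  set C' : ℝ := max C 0 with hC'
  have hC'0 : 0 ≤ C' := le_max_right _ _
  have hmC : ∀ n (f : Lip0 E), ∑ i, |mol (m n i) f| ≤ C' * ‖f‖ := fun n f =>
    (hm n f).trans (mul_le_mul_of_nonneg_right (le_max_left _ _) (norm_nonneg _))
  -- radii
  have hrad : ∀ n, ∃ r : ℝ, 0 ≤ r ∧ ∀ i, ∀ x ∈ (m n i).support, ‖x‖ ≤ r := by
    intro n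
    refine ⟨∑ i, ∑ x ∈ (m n i).support, ‖x‖, by positivity, fun i x hx => ?_⟩
    calc ‖x‖ ≤ ∑ x ∈ (m n i).support, ‖x‖ :=
          Finset.single_le_sum (f := fun x : E => ‖x‖) (fun _ _ => norm_nonneg _) hx
      _ ≤ _ := Finset.single_le_sum (f := fun i => ∑ x ∈ (m n i).support, ‖x‖)
          (fun _ _ => Finset.sum_nonneg fun _ _ => norm_nonneg _) (Finset.mem_univ i)
  choose ρ hρ0 hρ using hrad
  set R : ℕ → ℝ := fun n => 2 * ρ n + 4 * ∑ k ∈ Finset.range n, ρ k with hR
  have hRR : ∀ k n, k < n → 2 * ρ n + 2 * ρ k ≤ R n - R k := by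
    intro k n hkn
    have h1 : ∑ j ∈ Finset.range (k + 1), ρ j ≤ ∑ j ∈ Finset.range n, ρ j :=
      Finset.sum_le_sum_of_subset_of_nonneg (Finset.range_mono hkn) fun _ _ _ => hρ0 _
    rw [Finset.sum_range_succ] at h1
    simp only [hR]
    linarith
  have hRR' : ∀ k n, k ≠ n → 2 * ρ n + 2 * ρ k ≤ |R n - R k| := by
    intro k n hkn
    rcases lt_or_gt_of_ne hkn with h | h
    · exact (hRR k n h).trans (le_abs_self _)
    · have := hRR n k h
      rw [abs_sub_comm]
      exact le_trans (by linarith) ((hRR n k h).trans (le_abs_self _))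
  set z : ℕ → E := fun n => R n • e with hz
  have hzz : ∀ k n, k ≠ n → 2 * ρ n + 2 * ρ k ≤ ‖z n - z k‖ := by
    intro k n hkn
    have : ‖z n - z k‖ = |R n - R k| := by
      rw [hz]
      dsimp only
      rw [← sub_smul, norm_smul, he, mul_one, Real.norm_eq_abs]
    rw [this]
    exact hRR' k n hkn
  -- the functionals
  set Λ : ℕ → Lip0 E → ℕ → ℝ := fun n f i =>
    if hi : i < n then mol (m n ⟨i, hi⟩) (shift (z n) f) else 0 with hΛ
  have hΛadd : ∀ n f f' i, Λ n (f + f') i = Λ n f i + Λ n f' i := by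
    intro n f f' i
    simp only [hΛ]
    split_ifs with hi
    · rw [← mol_add]
      congr 1
      funext x
      simp only [shift_apply, add_apply]
      ring
    · simp
  have hΛmul : ∀ n (c : ℝ) f i, Λ n (c • f) i = c * Λ n f i := by
    intro n c f i
    simp only [hΛ]
    split_ifs with hi
    · rw [← mol_mul]
      congr 1
      funext x
      simp only [shift_apply, smul_apply]
      ring
    · simp
  have hΛsum : ∀ n f (s : Finset ℕ), ∑ i ∈ s, |Λ n f i| ≤ C' * ‖f‖ := by
    intro n f s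
    calc ∑ i ∈ s, |Λ n f i| ≤ ∑ i ∈ s ∪ Finset.range n, |Λ n f i| :=
          Finset.sum_le_sum_of_subset_of_nonneg Finset.subset_union_left
            fun _ _ _ => abs_nonneg _
      _ = ∑ i ∈ Finset.range n, |Λ n f i| := by
          symm
          apply Finset.sum_subset Finset.subset_union_right
          intro i _ hi
          have : ¬ i < n := fun h => hi (Finset.mem_range.2 h)
          simp only [hΛ, dif_neg this, abs_zero]
      _ = ∑ i : Fin n, |mol (m n i) (shift (z n) f)| := by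
          rw [Finset.sum_range]
          refine Finset.sum_congr rfl fun i _ => ?_
          simp only [hΛ, dif_pos i.2]
      _ ≤ C' * ‖shift (z n) f‖ := hmC n _
      _ ≤ C' * ‖f‖ := mul_le_mul_of_nonneg_left (norm_shift_le _ _) hC'0
  have hΛb : ∀ f i n, |Λ n f i| ≤ C' * ‖f‖ := by
    intro f i n
    have := hΛsum n f {i}
    rwa [Finset.sum_singleton] at this
  have hlim : ∀ (f : Lip0 E) (i : ℕ), ∃ l, Tendsto (fun n => Λ n f i) (hyperfilter ℕ) (𝓝 l) :=
    fun f i => exists_ultra _ (hΛb f i)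
  choose T0 hT0 using hlim
  have hT0sum : ∀ f (s : Finset ℕ), ∑ i ∈ s, |T0 f i| ≤ C' * ‖f‖ := by
    intro f s
    have h1 : Tendsto (fun n => ∑ i ∈ s, |Λ n f i|) (hyperfilter ℕ) (𝓝 (∑ i ∈ s, |T0 f i|)) :=
      tendsto_finsetSum _ fun i _ => (hT0 f i).abs
    exact le_of_tendsto h1 (Eventually.of_forall fun n => hΛsum n f s)
  let T1 : Lip0 E →ₗ[ℝ] lp (fun _ : ℕ => ℝ) 1 :=
    { toFun := fun f => ⟨T0 f, memℓp_gen' (C := C' * ‖f‖) (fun s => by
        simpa using hT0sum f s)⟩
      map_add' := fun f f' => by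
        ext i
        have h1 := (hT0 f i).add (hT0 f' i)
        have h2 := hT0 (f + f') i
        simp only [hΛadd] at h2
        exact tendsto_nhds_unique h2 h1
      map_smul' := fun c f => by
        ext i
        have h1 := (hT0 f i).const_mul c
        have h2 := hT0 (c • f) i
        simp only [hΛmul] at h2
        exact tendsto_nhds_unique h2 h1 }
  refine ⟨T1.mkContinuous C' (fun f => ?_), ?_⟩
  · apply lp.norm_le_of_forall_sum_le (by simp) (by positivity)
    intro s
    simp only [ENNReal.toReal_one, Real.rpow_one, Real.norm_eq_abs]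
    exact hT0sum f s
  -- surjectivity
  intro a
  set S : ℝ := ‖a‖ with hS
  have haS : ∀ n : ℕ, ∑ i : Fin n, |a i| ≤ S := by
    intro n
    have h := lp.sum_rpow_le_norm_rpow (p := 1) (by simp) a (Finset.range n)
    simp only [ENNReal.toReal_one, Real.rpow_one, Real.norm_eq_abs] at h
    rwa [Finset.sum_range] at h
  have hS0 : 0 ≤ S := norm_nonneg _
  set L : ℝ := S * K' with hL
  have hL0 : 0 ≤ L := by positivity
  set p : (Σ n : ℕ, {x : E // ‖x‖ ≤ ρ n}) → E := fun q => z q.1 + q.2.1 with hp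
  set v : (Σ n : ℕ, {x : E // ‖x‖ ≤ ρ n}) → ℝ := fun q => ∑ i : Fin q.1, a i * g q.1 i q.2.1
    with hv
  have hv1 : ∀ (n : ℕ) (x y : E),
      |∑ i : Fin n, a i * g n i x - ∑ i : Fin n, a i * g n i y| ≤ L * ‖x - y‖ := by
    intro n x y
    rw [← Finset.sum_sub_distrib]
    calc |∑ i : Fin n, (a i * g n i x - a i * g n i y)|
        ≤ ∑ i : Fin n, |a i * g n i x - a i * g n i y| := Finset.abs_sum_le_sum_abs _ _
      _ ≤ ∑ i : Fin n, |a i| * (K' * ‖x - y‖) := by
          refine Finset.sum_le_sum fun i _ => ?_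
          rw [← mul_sub, abs_mul]
          apply mul_le_mul_of_nonneg_left _ (abs_nonneg _)
          exact (sub_le_norm _ _ _).trans (mul_le_mul_of_nonneg_right (hgK n i) (norm_nonneg _))
      _ = (∑ i : Fin n, |a i|) * (K' * ‖x - y‖) := by rw [Finset.sum_mul]
      _ ≤ S * (K' * ‖x - y‖) := mul_le_mul_of_nonneg_right (haS n) (by positivity)
      _ = L * ‖x - y‖ := by rw [hL]; ring
  have hv0 : ∀ (n : ℕ), ∑ i : Fin n, a i * g n i 0 = 0 := by
    intro n
    simp
  have hpv : ∀ q q', |v q - v q'| ≤ L * ‖p q - p q'‖ := by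
    rintro ⟨n, x, hx⟩ ⟨k, y, hy⟩
    simp only [hv, hp]
    by_cases hnk : n = k
    · subst hnk
      rw [add_sub_add_left_eq_sub]
      exact hv1 n x y
    · have h1 := hv1 n x 0
      have h2 := hv1 k y 0
      rw [hv0, sub_zero, sub_zero] at h1 h2
      have h3 := hzz k n (Ne.symm hnk)
      have h4 : ‖z n - z k‖ ≤ ‖z n + x - (z k + y)‖ + ‖x‖ + ‖y‖ := by
        have e1 : z n - z k = (z n + x - (z k + y)) - x + y := by abel
        calc ‖z n - z k‖ = ‖(z n + x - (z k + y)) - x + y‖ := by rw [← e1]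
          _ ≤ ‖(z n + x - (z k + y)) - x‖ + ‖y‖ := norm_add_le _ _
          _ ≤ ‖z n + x - (z k + y)‖ + ‖x‖ + ‖y‖ := by
              have := norm_sub_le (z n + x - (z k + y)) x
              linarith
      have h5 : ‖x‖ + ‖y‖ ≤ ‖z n + x - (z k + y)‖ := by
        have := hρ0 n
        have := hρ0 k
        linarith
      calc |∑ i : Fin n, a i * g n i x - ∑ i : Fin k, a i * g k i y|
          ≤ |∑ i : Fin n, a i * g n i x| + |∑ i : Fin k, a i * g k i y| := abs_sub _ _
        _ ≤ L * ‖x‖ + L * ‖y‖ := add_le_add h1 h2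
        _ = L * (‖x‖ + ‖y‖) := by ring
        _ ≤ _ := mul_le_mul_of_nonneg_left h5 hL0
  obtain ⟨F, hF, hFp⟩ := mcshane p v hL0 hpv
  let F0 : Lip0 E := mkLip (fun x => F x - F 0) L (fun x y => by
    rw [sub_sub_sub_cancel_right]; exact hF x y) (sub_self _)
  have hF0 : ∀ x, F0 x = F x - F 0 := fun _ => rfl
  refine ⟨F0, ?_⟩
  ext i
  change T0 F0 i = a i
  refine tendsto_nhds_unique (hT0 F0 i) ?_
  apply tendsto_nhds_of_eventually_eq
  have hev : ∀ᶠ n in (hyperfilter ℕ : Filter ℕ), i < n :=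
    (Nat.hyperfilter_le_atTop) (eventually_gt_atTop i)
  filter_upwards [hev] with n hn
  simp only [hΛ, dif_pos hn]
  have h1 : mol (m n ⟨i, hn⟩) (shift (z n) F0) =
      mol (m n ⟨i, hn⟩) (fun x => ∑ j : Fin n, a j * g n j x) := by
    apply mol_congr
    intro x hx
    rw [shift_apply, hF0, hF0, sub_sub_sub_cancel_right]
    have h2 := hFp ⟨n, x, hρ n _ x hx⟩
    have h3 := hFp ⟨n, 0, by simpa using hρ0 n⟩
    simp only [hp, hv, add_zero, hv0] at h2 h3
    rw [h2, h3, sub_zero]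
  rw [h1, mol_sum, Finset.sum_eq_single ⟨i, hn⟩]
  · rw [hmg, if_pos rfl, mul_one]
  · intro j _ hj
    rw [hmg, if_neg (Ne.symm hj), mul_zero]
  · simp

theorem mapsOntoL1_of_mol [NormedSpace ℝ E] (h : Mol E) : MapsOntoL1 E := exists_of_mol h

end Pool.Agent.H16.Lip
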