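import Pool.Agent.H16.Lip.Defs

/-!
# A quotient `l_1` of a dual space gives uniform copies of `l_∞^n` in the space

A local duality argument: if the dual of `Y` maps onto `l_1` then `Y` contains `l_∞^n` uniformly.
-/

set_option autoImplicit false

open Set

namespace Pool.Agent.H16.Lip

variable {Y : Type*} [NormedAddCommGroup Y] [NormedSpace ℝ Y]

/-- The sum of the norms of the components of a functional on a finite product. -/
private lemma sum_single_le {S : Type*} [Fintype S] [DecidableEq S] (L : (S → Y) →L[ℝ] ℝ) :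
    ∑ s, ‖L.comp (ContinuousLinearMap.single ℝ (fun _ : S => Y) s)‖ ≤ ‖L‖ := by
  apply le_of_forall_pos_lt_add
  intro ε hε
  set N : ℝ := Fintype.card S + 1 with hN
  have hNpos : 0 < N := by positivity
  have key : ∀ s, ∃ y : Y, ‖y‖ ≤ 1 ∧
      ‖L.comp (ContinuousLinearMap.single ℝ (fun _ : S => Y) s)‖ - ε / N ≤
        L.comp (ContinuousLinearMap.single ℝ (fun _ : S => Y) s) y := by
    intro s
    obtain ⟨y, hy1, hy2⟩ := ContinuousLinearMap.exists_lt_apply_of_lt_opNorm
      (L.comp (ContinuousLinearMap.single ℝ (fun _ : S => Y) s))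
      (r := ‖L.comp (ContinuousLinearMap.single ℝ (fun _ : S => Y) s)‖ - ε / N)
      (by have : 0 < ε / N := by positivity
          linarith)
    rw [Real.norm_eq_abs] at hy2
    rcases le_total 0 (L.comp (ContinuousLinearMap.single ℝ (fun _ : S => Y) s) y) with h | h
    · refine ⟨y, hy1.le, ?_⟩
      rw [abs_of_nonneg h] at hy2
      exact hy2.le
    · refine ⟨-y, by rw [norm_neg]; exact hy1.le, ?_⟩
      rw [abs_of_nonpos h] at hy2
      rw [_root_.map_neg]
      exact hy2.le
  choose y hy1 hy2 using key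
  have h1 : L y = ∑ s, L.comp (ContinuousLinearMap.single ℝ (fun _ : S => Y) s) (y s) := by
    simp only [ContinuousLinearMap.comp_apply]
    rw [← _root_.map_sum]
    congr 1
    exact (Finset.univ_sum_single y).symm
  have h2 : L y ≤ ‖L‖ := by
    refine (le_abs_self _).trans ((L.le_opNorm y).trans ?_)
    have : ‖y‖ ≤ 1 := (pi_norm_le_iff_of_nonneg zero_le_one).2 hy1
    calc ‖L‖ * ‖y‖ ≤ ‖L‖ * 1 := mul_le_mul_of_nonneg_left this (norm_nonneg _)
      _ = ‖L‖ := mul_one _
  have h3 : ∑ s, (‖L.comp (ContinuousLinearMap.single ℝ (fun _ : S => Y) s)‖ - ε / N) ≤ L y := by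
    rw [h1]
    exact Finset.sum_le_sum fun s _ => hy2 s
  rw [Finset.sum_sub_distrib, Finset.sum_const, Finset.card_univ, nsmul_eq_mul] at h3
  have h4 : (Fintype.card S : ℝ) * (ε / N) < ε := by
    rw [← mul_div_assoc, div_lt_iff₀ hNpos, mul_comm ε]
    apply mul_lt_mul_of_pos_right _ hε
    rw [hN]; linarith
  linarith

/-- The sign of a boolean. -/
def bs (b : Bool) : ℝ := if b then 1 else -1

@[simp] theorem bs_true : bs true = 1 := rfl

@[simp] theorem bs_false : bs false = -1 := rfl

theorem abs_bs (b : Bool) : |bs b| = 1 := by cases b <;> simp [bs]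

variable {n : ℕ}

/-- The map `m ↦ (∑ s_i m_i)_s`. -/
private noncomputable def sgnMap (Y : Type*) [NormedAddCommGroup Y] [NormedSpace ℝ Y] (n : ℕ) :
    (Fin n → Y) →ₗ[ℝ] ((Fin n → Bool) → Y) where
  toFun m s := ∑ i, bs (s i) • m i
  map_add' m m' := by
    ext s; simp [Finset.sum_add_distrib]
  map_smul' c m := by
    funext s
    simp only [Pi.smul_apply, Finset.smul_sum, RingHom.id_apply]
    exact Finset.sum_congr rfl fun i _ => smul_comm _ _ _

private lemma sgnMap_apply (m : Fin n → Y) (s : Fin n → Bool) :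
    sgnMap Y n m s = ∑ i, bs (s i) • m i := rfl

private lemma sgnMap_injective : Function.Injective (sgnMap Y n) := by
  rw [← LinearMap.ker_eq_bot, LinearMap.ker_eq_bot']
  intro m hm
  funext i
  have h1 := congrFun hm (fun _ => true)
  have h2 := congrFun hm (fun j => if j = i then false else true)
  rw [sgnMap_apply, Pi.zero_apply] at h1 h2
  have h3 : ∑ j, (bs true - bs (if j = i then false else true)) • m j = 0 := by
    rw [← sub_eq_zero.2 (h1.trans h2.symm), ← Finset.sum_sub_distrib]
    exact Finset.sum_congr rfl fun j _ => sub_smul _ _ _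
  rw [Finset.sum_eq_single i] at h3
  · have h4 : (2:ℝ) • m i = 0 := by
      rw [← h3]; congr 1; simp [bs]; norm_num
    exact (smul_eq_zero.1 h4).resolve_left two_ne_zero
  · intro j _ hj
    simp [hj]
  · simp

private lemma l1_sum_le (x : lp (fun _ : ℕ => ℝ) 1) (n : ℕ) : ∑ i : Fin n, |x i| ≤ ‖x‖ := by
  have h := lp.sum_rpow_le_norm_rpow (p := 1) (by simp) x (Finset.range n)
  simp only [ENNReal.toReal_one, Real.rpow_one, Real.norm_eq_abs] at h
  rwa [Finset.sum_range] at h

private lemma sum_signs_le (x : Fin n → ℝ) (s : Fin n → Bool) :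
    ∑ i, bs (s i) * x i ≤ ∑ i, |x i| :=
  Finset.sum_le_sum fun i _ => (le_abs_self _).trans (by rw [abs_mul, abs_bs, one_mul])

/-- The convex set of the matrices `(g_j(m_i))`. -/
private def matSet (g : Fin n → StrongDual ℝ Y) (C : ℝ) : Set (Fin n × Fin n → ℝ) :=
  {B | ∃ m : Fin n → Y, (∀ s, ‖sgnMap Y n m s‖ ≤ C) ∧ ∀ p, B p = g p.2 (m p.1)}

private lemma matSet_convex (g : Fin n → StrongDual ℝ Y) (C : ℝ) : Convex ℝ (matSet g C) := by
  rintro B ⟨m, hm, hB⟩ B' ⟨m', hm', hB'⟩ a b ha hb hab
  refine ⟨a • m + b • m', fun s => ?_, fun p => ?_⟩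
  · rw [_root_.map_add, _root_.map_smul, _root_.map_smul, Pi.add_apply, Pi.smul_apply,
      Pi.smul_apply]
    refine (norm_add_le _ _).trans ?_
    rw [norm_smul, norm_smul, Real.norm_of_nonneg ha, Real.norm_of_nonneg hb]
    calc a * ‖sgnMap Y n m s‖ + b * ‖sgnMap Y n m' s‖ ≤ a * C + b * C :=
          add_le_add (mul_le_mul_of_nonneg_left (hm s) ha) (mul_le_mul_of_nonneg_left (hm' s) hb)
      _ = C := by rw [← add_mul, hab, one_mul]
  · simp only [Pi.add_apply, Pi.smul_apply, _root_.map_add, _root_.map_smul, hB p, hB' p]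

/-- The identity matrix is in the closure of `matSet`. -/
private lemma one_mem_closure (T : StrongDual ℝ Y →L[ℝ] lp (fun _ : ℕ => ℝ) 1)
    (g : Fin n → StrongDual ℝ Y) (hg : ∀ j : Fin n, T (g j) = lp.single 1 (j : ℕ) (1:ℝ)) :
    (fun p : Fin n × Fin n => if p.1 = p.2 then (1:ℝ) else 0) ∈
      closure (matSet g (‖T‖ + 1)) := by
  classical
  by_contra hcon
  set C : ℝ := ‖T‖ + 1 with hC
  have hC0 : 0 < C := by positivity
  obtain ⟨f, u, hf1, hf2⟩ := geometric_hahn_banach_closed_point
    (matSet_convex g C).closure isClosed_closure hcon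
  have hf1' : ∀ B ∈ matSet g C, f B < u := fun B hB => hf1 B (subset_closure hB)
  have hu : 0 < u := by
    have := hf1' 0 ⟨0, fun s => by rw [_root_.map_zero]; simpa using hC0.le, fun p => by simp⟩
    rwa [_root_.map_zero] at this
  set b : Fin n × Fin n → ℝ := fun p => f fun q => if p = q then 1 else 0 with hb
  have hfb : ∀ B : Fin n × Fin n → ℝ, f B = ∑ i, ∑ j, B (i, j) * b (i, j) := by
    intro B
    rw [← Fintype.sum_prod_type' (f := fun i j => B (i, j) * b (i, j))]
    have := LinearMap.pi_apply_eq_sum_univ (f : (Fin n × Fin n → ℝ) →ₗ[ℝ] ℝ) B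
    simpa [hb, smul_eq_mul] using this
  set h : Fin n → StrongDual ℝ Y := fun i => ∑ j, b (i, j) • g j with hh
  have hhm : ∀ m : Fin n → Y, ∑ i, h i (m i) = f fun p => g p.2 (m p.1) := by
    intro m
    rw [hfb]
    refine Finset.sum_congr rfl fun i _ => ?_
    simp only [hh, _root_.sum_apply, _root_.smul_apply, smul_eq_mul]
    exact Finset.sum_congr rfl fun j _ => mul_comm _ _
  -- the functional on the range
  set e := LinearEquiv.ofInjective (sgnMap Y n) sgnMap_injective with he
  have hbound : ∀ m : Fin n → Y, |∑ i, h i (m i)| ≤ u / C * ‖sgnMap Y n m‖ := by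
    have h1 : ∀ m : Fin n → Y, ∑ i, h i (m i) ≤ u / C * ‖sgnMap Y n m‖ := by
      intro m
      by_cases h0 : ‖sgnMap Y n m‖ = 0
      · have : m = 0 := sgnMap_injective (by rw [_root_.map_zero]; exact norm_eq_zero.1 h0)
        subst this
        simp
      have hpos : 0 < ‖sgnMap Y n m‖ := lt_of_le_of_ne (norm_nonneg _) (Ne.symm h0)
      have h2 := hf1' (fun p => g p.2 (((C / ‖sgnMap Y n m‖) • m) p.1))
        ⟨(C / ‖sgnMap Y n m‖) • m, fun s => ?_, fun p => rfl⟩
      · rw [← hhm] at h2
        have h3 : ∑ i, h i (((C / ‖sgnMap Y n m‖) • m) i) =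
            (C / ‖sgnMap Y n m‖) * ∑ i, h i (m i) := by
          rw [Finset.mul_sum]
          refine Finset.sum_congr rfl fun i _ => ?_
          rw [Pi.smul_apply, _root_.map_smul, smul_eq_mul]
        rw [h3] at h2
        rw [div_mul_eq_mul_div, le_div_iff₀ hC0]
        rw [div_mul_eq_mul_div, div_lt_iff₀ hpos] at h2
        linarith
      · rw [_root_.map_smul, Pi.smul_apply, norm_smul, Real.norm_of_nonneg (by positivity)]
        calc C / ‖sgnMap Y n m‖ * ‖sgnMap Y n m s‖
            ≤ C / ‖sgnMap Y n m‖ * ‖sgnMap Y n m‖ :=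
              mul_le_mul_of_nonneg_left (norm_le_pi_norm _ s) (by positivity)
          _ = C := by field_simp
    intro m
    rw [abs_le]
    refine ⟨?_, h1 m⟩
    have := h1 (-m)
    simp only [Pi.neg_apply, _root_.map_neg, Finset.sum_neg_distrib, norm_neg] at this
    linarith
  let L0 : (Fin n → Y) →ₗ[ℝ] ℝ :=
    { toFun := fun m => ∑ i, h i (m i)
      map_add' := fun m m' => by simp [Finset.sum_add_distrib]
      map_smul' := fun c m => by simp [Finset.mul_sum] }
  have hL0 : ∀ m, L0 m = ∑ i, h i (m i) := fun _ => rfl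
  let L1 : LinearMap.range (sgnMap Y n) →L[ℝ] ℝ :=
    LinearMap.mkContinuous (L0 ∘ₗ (e.symm : _ →ₗ[ℝ] _)) (u / C) (fun w => by
      obtain ⟨m, hm⟩ : ∃ m, e m = w := ⟨e.symm w, e.apply_symm_apply w⟩
      have hw : ‖w‖ = ‖sgnMap Y n m‖ := by rw [← hm]; rfl
      rw [hw, ← hm]
      simp only [LinearMap.comp_apply, LinearEquiv.coe_coe, LinearEquiv.symm_apply_apply]
      exact hbound m)
  have hL1 : ∀ m, L1 (e m) = ∑ i, h i (m i) := by
    intro m
    change L0 (e.symm (e m)) = _
    rw [LinearEquiv.symm_apply_apply, hL0]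
  have hL1n : ‖L1‖ ≤ u / C := LinearMap.mkContinuous_norm_le _ (by positivity) _
  obtain ⟨L, hL, hLn⟩ := exists_extension_norm_eq (LinearMap.range (sgnMap Y n)) L1
  set Ls : (Fin n → Bool) → StrongDual ℝ Y :=
    fun s => L.comp (ContinuousLinearMap.single ℝ (fun _ => Y) s) with hLs
  have hLsum : ∑ s, ‖Ls s‖ ≤ u / C := (sum_single_le L).trans (hLn.le.trans hL1n)
  have hLz : ∀ z : (Fin n → Bool) → Y, L z = ∑ s, Ls s (z s) := by
    intro z
    simp only [hLs, ContinuousLinearMap.comp_apply]
    rw [← _root_.map_sum]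
    congr 1
    exact (Finset.univ_sum_single z).symm
  have hhs : ∀ i, h i = ∑ s, bs (s i) • Ls s := by
    intro i
    ext y
    have e1 : L (sgnMap Y n (Pi.single i y)) = h i y := by
      have := hL (e (Pi.single i y))
      rw [hL1] at this
      change L (sgnMap Y n (Pi.single i y)) = _ at this
      rw [this, Finset.sum_eq_single i]
      · rw [Pi.single_eq_same]
      · intro j _ hj
        rw [Pi.single_eq_of_ne hj, _root_.map_zero]
      · simp
    rw [← e1, hLz, _root_.sum_apply]
    refine Finset.sum_congr rfl fun s _ => ?_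
    have e2 : sgnMap Y n (Pi.single i y) s = bs (s i) • y := by
      rw [sgnMap_apply, Finset.sum_eq_single i]
      · rw [Pi.single_eq_same]
      · intro j _ hj
        rw [Pi.single_eq_of_ne hj, smul_zero]
      · simp
    rw [e2, _root_.map_smul, _root_.smul_apply]
  -- the value at the identity
  have hTh : ∀ i : Fin n, (T (h i)) (i : ℕ) = b (i, i) := by
    intro i
    simp only [hh, _root_.map_sum, _root_.map_smul, hg]
    rw [lp.coeFn_sum, Finset.sum_apply, Finset.sum_eq_single i]
    · rw [lp.coeFn_smul, Pi.smul_apply, lp.single_apply_self, smul_eq_mul, mul_one]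
    · intro j _ hj
      rw [lp.coeFn_smul, Pi.smul_apply, lp.single_apply_ne, smul_zero]
      exact fun hc => hj (Fin.ext hc.symm)
    · simp
  have hfI : f (fun p : Fin n × Fin n => if p.1 = p.2 then (1:ℝ) else 0) =
      ∑ i, (T (h i)) (i : ℕ) := by
    rw [hfb]
    refine Finset.sum_congr rfl fun i _ => ?_
    rw [hTh]
    simp
  have hTs : ∀ i : Fin n, (T (h i)) (i : ℕ) = ∑ s, bs (s i) * (T (Ls s)) (i : ℕ) := by
    intro i
    rw [hhs, _root_.map_sum, lp.coeFn_sum, Finset.sum_apply]
    refine Finset.sum_congr rfl fun s _ => ?_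
    rw [_root_.map_smul, lp.coeFn_smul, Pi.smul_apply, smul_eq_mul]
  have hfin : ∑ i, (T (h i)) (i : ℕ) ≤ u := by
    calc ∑ i, (T (h i)) (i : ℕ) = ∑ s : Fin n → Bool, ∑ i, bs (s i) * (T (Ls s)) (i : ℕ) := by
          rw [Finset.sum_comm]
          exact Finset.sum_congr rfl fun i _ => hTs i
      _ ≤ ∑ s : Fin n → Bool, ‖T‖ * ‖Ls s‖ := by
          refine Finset.sum_le_sum fun s _ => ?_
          exact (sum_signs_le _ s).trans ((l1_sum_le _ n).trans (T.le_opNorm _))
      _ = ‖T‖ * ∑ s, ‖Ls s‖ := by rw [Finset.mul_sum]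
      _ ≤ ‖T‖ * (u / C) := mul_le_mul_of_nonneg_left hLsum T.opNorm_nonneg
      _ ≤ C * (u / C) := mul_le_mul_of_nonneg_right (by rw [hC]; linarith) (by positivity)
      _ = u := by field_simp
  rw [hfI] at hf2
  linarith

/-- If the dual of `Y` maps onto `l_1` then `Y` contains `l_∞^n` uniformly. -/
theorem containsLinf_of_dual (T : StrongDual ℝ Y →L[ℝ] lp (fun _ : ℕ => ℝ) 1)
    (hT : Function.Surjective T) : ContainsLinf Y := by
  classical
  obtain ⟨K, hK, hpre⟩ := T.exists_preimage_norm_le hT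
  set C : ℝ := ‖T‖ + 1 with hC
  have hC0 : 0 < C := by positivity
  refine ⟨2 * K * C, fun n => ?_⟩
  have hg' : ∀ j : Fin n, ∃ g : StrongDual ℝ Y, T g = lp.single 1 (j : ℕ) (1:ℝ) ∧ ‖g‖ ≤ K := by
    intro j
    obtain ⟨x, hx, hx'⟩ := hpre (lp.single 1 (j : ℕ) (1:ℝ))
    refine ⟨x, hx, hx'.trans ?_⟩
    rw [lp.norm_single (by simp)]
    simp
  choose g hg hgn using hg'
  have hmem := one_mem_closure T g hg
  rw [Metric.mem_closure_iff] at hmem
  obtain ⟨B, ⟨m, hm, hB⟩, hdist⟩ := hmem (1 / (2 * (n + 1))) (by positivity)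
  have hent : ∀ i j, |g j (m i) - if i = j then 1 else 0| ≤ 1 / (2 * (n + 1)) := by
    intro i j
    have h1 := (dist_le_pi_dist (fun p : Fin n × Fin n => if p.1 = p.2 then (1:ℝ) else 0) B
      (i, j)).trans hdist.le
    rw [hB, dist_comm, Real.dist_eq] at h1
    exact h1
  refine ⟨fun i => (2 * K) • m i, fun a => ?_⟩
  have hsum : ∑ i, a i • (2 * K) • m i = (2 * K) • ∑ i, a i • m i := by
    rw [Finset.smul_sum]
    exact Finset.sum_congr rfl fun i _ => smul_comm _ _ _
  rw [hsum, norm_smul, Real.norm_of_nonneg (by positivity : (0:ℝ) ≤ 2 * K)]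
  constructor
  · have key : ∀ j, ‖a j‖ ≤ K * ‖∑ i, a i • m i‖ + ‖a‖ / 2 := by
      intro j
      have h1 : |g j (∑ i, a i • m i)| ≤ K * ‖∑ i, a i • m i‖ :=
        ((g j).le_opNorm _).trans (mul_le_mul_of_nonneg_right (hgn j) (norm_nonneg _))
      have h2 : g j (∑ i, a i • m i) =
          a j + ∑ i, a i * (g j (m i) - if i = j then 1 else 0) := by
        rw [_root_.map_sum]
        simp only [_root_.map_smul, smul_eq_mul, mul_sub, Finset.sum_sub_distrib]
        simp
      have h3 : |∑ i, a i * (g j (m i) - if i = j then 1 else 0)| ≤ ‖a‖ / 2 := by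
        calc |∑ i, a i * (g j (m i) - if i = j then 1 else 0)|
            ≤ ∑ i : Fin n, |a i * (g j (m i) - if i = j then 1 else 0)| :=
              Finset.abs_sum_le_sum_abs _ _
          _ ≤ ∑ _i : Fin n, ‖a‖ * (1 / (2 * (n + 1))) := by
              refine Finset.sum_le_sum fun i _ => ?_
              rw [abs_mul]
              exact mul_le_mul (norm_le_pi_norm a i) (hent i j) (abs_nonneg _) (norm_nonneg _)
          _ = ‖a‖ / 2 * (n / (n + 1)) := by
              rw [Finset.sum_const, Finset.card_univ, Fintype.card_fin, nsmul_eq_mul]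
              field_simp
          _ ≤ ‖a‖ / 2 * 1 := by
              apply mul_le_mul_of_nonneg_left _ (by positivity)
              rw [div_le_one (by positivity)]; linarith
          _ = ‖a‖ / 2 := mul_one _
      rw [Real.norm_eq_abs]
      have h4 : a j = g j (∑ i, a i • m i) -
          ∑ i, a i * (g j (m i) - if i = j then 1 else 0) := by rw [h2]; ring
      calc |a j| = |g j (∑ i, a i • m i) -
          ∑ i, a i * (g j (m i) - if i = j then 1 else 0)| := by rw [← h4]
        _ ≤ |g j (∑ i, a i • m i)| + |∑ i, a i * (g j (m i) - if i = j then 1 else 0)| :=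
            abs_sub _ _
        _ ≤ _ := add_le_add h1 h3
    have h5 : ‖a‖ ≤ K * ‖∑ i, a i • m i‖ + ‖a‖ / 2 :=
      (pi_norm_le_iff_of_nonneg (by positivity)).2 key
    linarith
  · have h6 : ‖∑ i, a i • m i‖ ≤ C * ‖a‖ := by
      apply NormedSpace.norm_le_dual_bound ℝ _ (by positivity)
      intro f
      set s : Fin n → Bool := fun i => decide (0 ≤ f (m i)) with hs
      have h7 : ∀ i, bs (s i) * f (m i) = |f (m i)| := by
        intro i
        by_cases h : 0 ≤ f (m i)
        · simp [hs, h, abs_of_nonneg]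
        · simp [hs, h, abs_of_neg (not_le.1 h)]
      calc ‖f (∑ i, a i • m i)‖ = |∑ i, a i * f (m i)| := by
            rw [_root_.map_sum, Real.norm_eq_abs]
            simp only [_root_.map_smul, smul_eq_mul]
        _ ≤ ∑ i, |a i * f (m i)| := Finset.abs_sum_le_sum_abs _ _
        _ ≤ ∑ i, ‖a‖ * |f (m i)| := by
            refine Finset.sum_le_sum fun i _ => ?_
            rw [abs_mul]
            exact mul_le_mul_of_nonneg_right (norm_le_pi_norm a i) (abs_nonneg _)
        _ = ‖a‖ * f (sgnMap Y n m s) := by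
            rw [← Finset.mul_sum, sgnMap_apply, _root_.map_sum]
            simp only [_root_.map_smul, smul_eq_mul, h7]
        _ ≤ ‖a‖ * (‖f‖ * C) := by
            apply mul_le_mul_of_nonneg_left _ (norm_nonneg _)
            exact (le_abs_self _).trans ((f.le_opNorm _).trans
              (mul_le_mul_of_nonneg_left (hm s) (norm_nonneg _)))
        _ = C * ‖a‖ * ‖f‖ := by ring
    calc 2 * K * ‖∑ i, a i • m i‖ ≤ 2 * K * (C * ‖a‖) :=
          mul_le_mul_of_nonneg_left h6 (by positivity)
      _ = 2 * K * C * ‖a‖ := by ring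

end Pool.Agent.H16.Lip
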