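import Pool.Agent.H16.Lip.Glue
import Pool.Agent.H16.Lip.Local

/-!
# The characterisation, and the reduction to the plane
-/

set_option autoImplicit false

open Set

namespace Pool.Agent.H16.Lip

/-- `Lip_0(E)` maps onto `l_1` iff the free space contains `l_∞^n` uniformly. -/
theorem mapsOntoL1_iff (E : Type*) [NormedAddCommGroup E] [NormedSpace ℝ E] :
    MapsOntoL1 E ↔ ContainsLinf (Free E) := by
  constructor
  · rintro ⟨T, hT⟩
    exact containsLinf_of_dual (T.comp ofDual) (hT.comp ofDual_surjective)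
  · intro h
    exact mapsOntoL1_of_mol (mol_of_containsLinf h)

variable {E F : Type*} [NormedAddCommGroup E] [NormedSpace ℝ E] [NormedAddCommGroup F]
  [NormedSpace ℝ F]

lemma precomp_aux (ι : F →L[ℝ] E) (f : Lip0 E) (x y : F) :
    |f (ι x) - f (ι y)| ≤ ‖ι‖ * ‖f‖ * ‖x - y‖ := by
  refine (sub_le_norm f _ _).trans ?_
  rw [← _root_.map_sub]
  calc ‖f‖ * ‖ι (x - y)‖ ≤ ‖f‖ * (‖ι‖ * ‖x - y‖) :=
        mul_le_mul_of_nonneg_left (ι.le_opNorm _) (norm_nonneg _)
    _ = ‖ι‖ * ‖f‖ * ‖x - y‖ := by ring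

/-- Composition with a linear map. -/
noncomputable def precomp (ι : F →L[ℝ] E) : Lip0 E →L[ℝ] Lip0 F :=
  LinearMap.mkContinuous
    { toFun := fun f => mkLip (fun x => f (ι x)) (‖ι‖ * ‖f‖) (precomp_aux ι f) (by simp)
      map_add' := fun _ _ => rfl
      map_smul' := fun _ _ => rfl } ‖ι‖ (fun f =>
        norm_le_of _ (by positivity) (precomp_aux ι f))

lemma precomp_apply (ι : F →L[ℝ] E) (f : Lip0 E) (x : F) : precomp ι f x = f (ι x) := rfl

theorem mapsOntoL1_of_retract (ι : F →L[ℝ] E) (P : E →L[ℝ] F) (h : ∀ x, P (ι x) = x) :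
    MapsOntoL1 F → MapsOntoL1 E := by
  rintro ⟨T, hT⟩
  refine ⟨T.comp (precomp ι), hT.comp fun g => ⟨precomp P g, ?_⟩⟩
  ext x
  change g (P (ι x)) = g x
  rw [h]

theorem mapsOntoL1_of_plane (h : 2 ≤ Module.rank ℝ E)
    (h2 : MapsOntoL1 (EuclideanSpace ℝ (Fin 2))) : MapsOntoL1 E := by
  obtain ⟨f, hf⟩ := Module.le_rank_iff_exists_linearMap.1 (by exact_mod_cast h :
    ((2 : ℕ) : Cardinal) ≤ Module.rank ℝ E)
  let f' : EuclideanSpace ℝ (Fin 2) →ₗ[ℝ] E :=
    f ∘ₗ (WithLp.linearEquiv 2 ℝ (Fin 2 → ℝ)).toLinearMap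
  have hf' : Function.Injective f' := hf.comp (WithLp.linearEquiv 2 ℝ (Fin 2 → ℝ)).injective
  let e := (LinearEquiv.ofInjective f' hf').toContinuousLinearEquiv
  obtain ⟨g, hg⟩ := Submodule.ClosedComplemented.of_finiteDimensional (𝕜 := ℝ)
    (LinearMap.range f')
  refine mapsOntoL1_of_retract (LinearMap.toContinuousLinearMap f')
    ((e.symm : _ →L[ℝ] _).comp g) (fun x => ?_) h2
  change e.symm (g (f' x)) = x
  have h1 : g (f' x) = e x := hg (e x)
  rw [h1, ContinuousLinearEquiv.symm_apply_apply]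

end Pool.Agent.H16.Lip
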