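import Pool.Agent.H16.Lip.Torus

/-!
# Spaces containing `l_1^n` uniformly
-/

set_option autoImplicit false

open Finset

namespace Pool.Agent.H16.Lip

/-- The normed space `E` contains the spaces `l_1^n` uniformly. -/
def ContainsL1 (E : Type*) [NormedAddCommGroup E] [NormedSpace ℝ E] : Prop :=
  ∃ c : ℝ, 0 < c ∧ ∀ n : ℕ, ∃ u : Fin n → E, ∀ a : Fin n → ℝ,
    c * ∑ i, |a i| ≤ ‖∑ i, a i • u i‖ ∧ ‖∑ i, a i • u i‖ ≤ ∑ i, |a i|

/-- Characters with a small first value. -/
lemma exists_chr (ε : ℝ) (hε : 0 < ε) : ∃ (M : ℕ) (_ : NeZero M) (χ : Chr M),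
    0 < (χ.f 1).im ∧ ‖χ.f 1 - 1‖ ≤ 2 * (χ.f 1).im ∧ (χ.f 1).im ≤ ε := by
  obtain ⟨N, hN⟩ := exists_nat_gt (2 * Real.pi / min ε 1)
  have hm : 0 < min ε 1 := lt_min hε one_pos
  have hpi := Real.pi_pos
  have hN0 : 0 < (N : ℝ) := lt_trans (by positivity) hN
  have hN0' : 0 < N := by exact_mod_cast hN0
  have hNZ : NeZero N := ⟨hN0'.ne'⟩
  let χ : Chr N :=
    { f := fun a => ZMod.stdAddChar a
      add := fun a b => AddChar.map_add_eq_mul _ a b
      nrm := fun a => by rw [ZMod.stdAddChar_apply]; exact Circle.norm_coe _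
      neg := fun a => AddChar.map_neg_eq_conj _ a
      zero := AddChar.map_zero_eq_one _ }
  set δ : ℝ := 2 * Real.pi / N with hδ
  have hδ0 : 0 < δ := by positivity
  have hδ1 : δ < min ε 1 := by
    rw [hδ, div_lt_iff₀ hN0]
    rw [div_lt_iff₀ hm] at hN
    linarith
  have hδε : δ < ε := hδ1.trans_le (min_le_left _ _)
  have hδ11 : δ < 1 := hδ1.trans_le (min_le_right _ _)
  have h1 : χ.f 1 = Complex.exp (δ * Complex.I) := by
    have := ZMod.stdAddChar_coe (N := N) 1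
    change ZMod.stdAddChar (1 : ZMod N) = _
    rw [Int.cast_one] at this
    rw [this]
    congr 1
    rw [hδ]
    push_cast
    ring
  have him : (χ.f 1).im = Real.sin δ := by rw [h1, Complex.exp_ofReal_mul_I_im]
  have hsin1 : Real.sin δ ≤ δ := Real.sin_le hδ0.le
  have hsin2 : δ / 2 ≤ Real.sin δ := by
    have h2 := Real.mul_le_sin hδ0.le (by linarith [Real.pi_gt_three])
    have h3 : (1:ℝ) / 2 ≤ 2 / Real.pi := by
      rw [div_le_div_iff₀ two_pos hpi]; linarith [Real.pi_le_four]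
    have := mul_le_mul_of_nonneg_right h3 hδ0.le
    linarith
  refine ⟨N, hNZ, χ, ?_, ?_, ?_⟩
  · rw [him]; linarith
  · rw [him, h1]
    have h4 : ‖Complex.exp (δ * Complex.I) - 1‖ ≤ δ := by
      have := Real.norm_exp_I_mul_ofReal_sub_one_le (x := δ)
      rw [mul_comm, Real.norm_of_nonneg hδ0.le] at this
      exact this
    linarith
  · rw [him]; linarith

variable {E : Type*} [NormedAddCommGroup E] [NormedSpace ℝ E]

omit [NormedAddCommGroup E] in
lemma mol_single (x : E) (a : ℝ) (f : E → ℝ) : mol (Finsupp.single x a) f = a * f x := by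
  unfold mol
  rw [Finsupp.sum_single_index]
  simp

omit [NormedAddCommGroup E] in
lemma mol_sub_left (m m' : E →₀ ℝ) (f : E → ℝ) : mol (m - m') f = mol m f - mol m' f := by
  unfold mol
  rw [Finsupp.sum_sub_index]
  intro a b c
  ring

omit [NormedAddCommGroup E] in
lemma mol_sum_left {I : Type*} (s : Finset I) (m : I → (E →₀ ℝ)) (f : E → ℝ) :
    mol (∑ i ∈ s, m i) f = ∑ i ∈ s, mol (m i) f := by
  classical
  induction s using Finset.induction_on with
  | empty => simp [mol]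
  | insert i s hi ih =>
    rw [sum_insert hi, sum_insert hi, ← ih]
    unfold mol
    rw [Finsupp.sum_add_index']
    · intro a; simp
    · intro a b c; ring

theorem mol_of_containsL1 (h : ContainsL1 E) : Mol E := by
  classical
  obtain ⟨c, hc, hu⟩ := h
  refine ⟨16 / c, 1, fun n => ?_⟩
  obtain ⟨M, hM, χ, hD, hη, hDε⟩ := exists_chr ((1:ℝ) / 4 ^ n) (by positivity)
  set D : ℝ := (χ.f 1).im with hDdef
  -- the vectors
  let e := Fintype.equivFin ((Fin n → Bool) × Bool)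
  obtain ⟨w0, hw0⟩ := hu (Fintype.card ((Fin n → Bool) × Bool))
  set w : (Fin n → Bool) × Bool → E := fun k => w0 (e k) with hw
  have hwsum : ∀ a : (Fin n → Bool) × Bool → ℝ,
      c * ∑ k, |a k| ≤ ‖∑ k, a k • w k‖ ∧ ‖∑ k, a k • w k‖ ≤ ∑ k, |a k| := by
    intro a
    have h1 := hw0 (fun i => a (e.symm i))
    have h2 : ∑ i, |a (e.symm i)| = ∑ k, |a k| := Equiv.sum_comp e.symm (fun k => |a k|)
    have h3 : ∑ i, a (e.symm i) • w0 i = ∑ k, a k • w k := by
      rw [← Equiv.sum_comp e.symm (fun k => a k • w k)]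
      simp [hw]
    rwa [h2, h3] at h1
  -- the embedding
  set ι : ((Fin n → Bool) → ZMod M) → E := fun x =>
    ∑ k : (Fin n → Bool) × Bool,
      (if k.2 then (χ.f (x k.1)).re else (χ.f (x k.1)).im) • w k with hι
  have hιsub : ∀ x y, ι x - ι y = ∑ k : (Fin n → Bool) × Bool,
      (if k.2 then (χ.f (x k.1) - χ.f (y k.1)).re else (χ.f (x k.1) - χ.f (y k.1)).im) • w k := by
    intro x y
    simp only [hι]
    rw [← sum_sub_distrib]
    refine sum_congr rfl fun k _ => ?_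
    rw [← sub_smul]
    congr 1
    split_ifs <;> simp
  have hsum2 : ∀ x y : (Fin n → Bool) → ZMod M, ∑ k : (Fin n → Bool) × Bool,
      |if k.2 then (χ.f (x k.1) - χ.f (y k.1)).re else (χ.f (x k.1) - χ.f (y k.1)).im| =
      ∑ ω, (|(χ.f (x ω) - χ.f (y ω)).re| + |(χ.f (x ω) - χ.f (y ω)).im|) := by
    intro x y
    rw [Fintype.sum_prod_type]
    refine sum_congr rfl fun ω _ => ?_
    rw [Fintype.sum_bool]
    simp
  have hlow : ∀ x y, c * ∑ ω, ‖χ.f (x ω) - χ.f (y ω)‖ ≤ ‖ι x - ι y‖ := by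
    intro x y
    rw [hιsub]
    refine le_trans ?_ (hwsum _).1
    rw [hsum2]
    apply mul_le_mul_of_nonneg_left _ hc.le
    exact sum_le_sum fun ω _ => Complex.norm_le_abs_re_add_abs_im _
  have hup : ∀ x y, ‖ι x - ι y‖ ≤ 2 * ∑ ω, ‖χ.f (x ω) - χ.f (y ω)‖ := by
    intro x y
    rw [hιsub]
    refine (hwsum _).2.trans ?_
    rw [hsum2, mul_sum]
    refine sum_le_sum fun ω _ => ?_
    have h1 := Complex.abs_re_le_norm (χ.f (x ω) - χ.f (y ω))
    have h2 := Complex.abs_im_le_norm (χ.f (x ω) - χ.f (y ω))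
    linarith
  have hstep : ∀ (ω : Fin n → Bool) x, ‖ι (x + Pi.single ω 1) - ι x‖ ≤ 4 * D := by
    intro ω x
    refine (hup _ _).trans ?_
    have h1 : ∑ ω', ‖χ.f ((x + Pi.single ω 1 : (Fin n → Bool) → ZMod M) ω') - χ.f (x ω')‖ =
        ‖χ.f 1 - 1‖ := by
      rw [sum_eq_single ω]
      · rw [Pi.add_apply, Pi.single_eq_same, χ.add]
        have : χ.f (x ω) * χ.f 1 - χ.f (x ω) = χ.f (x ω) * (χ.f 1 - 1) := by ring
        rw [this, norm_mul, χ.nrm, one_mul]
      · intro ω' _ hne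
        rw [Pi.add_apply, Pi.single_eq_of_ne hne, add_zero, sub_self, norm_zero]
      · simp
    rw [h1]
    linarith
  have hdiam : ∀ x y, ‖ι x - ι y‖ ≤ 4 * 2 ^ n := by
    intro x y
    refine (hup _ _).trans ?_
    have h1 : ∑ ω : Fin n → Bool, ‖χ.f (x ω) - χ.f (y ω)‖ ≤ ∑ _ω : Fin n → Bool, (2:ℝ) := by
      refine sum_le_sum fun ω _ => (norm_sub_le _ _).trans ?_
      rw [χ.nrm, χ.nrm]; norm_num
    rw [sum_const, card_univ, nsmul_eq_mul, Fintype.card_fun, Fintype.card_bool,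
      Fintype.card_fin] at h1
    push_cast at h1
    linarith
  -- the functions
  have hex : ∀ j : Fin n, ∃ g : Lip0 E, ‖g‖ ≤ 1 ∧
      ∀ x, g (ι x) - g (ι 0) = c * (χ.f (ph j x)).im := by
    intro j
    obtain ⟨g, hg1, hg2⟩ := mcshane ι (fun x => c * (χ.f (ph j x)).im) zero_le_one
      (fun x y => by
        rw [one_mul, ← mul_sub, abs_mul, abs_of_pos hc, ← Complex.sub_im]
        refine le_trans (mul_le_mul_of_nonneg_left ?_ hc.le) (hlow x y)
        exact (Complex.abs_im_le_norm _).trans (χ.ph_sub_le j x y))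
    have hg3 : ∀ x y, |(g x - g 0) - (g y - g 0)| ≤ 1 * ‖x - y‖ := by
      intro x y
      rw [sub_sub_sub_cancel_right]; exact hg1 x y
    refine ⟨mkLip (fun x => g x - g 0) 1 hg3 (sub_self _), norm_le_of _ zero_le_one hg3,
      fun x => ?_⟩
    rw [mkLip_apply, mkLip_apply, sub_sub_sub_cancel_right, hg2, hg2, ph_zero, χ.zero]
    simp
  choose g hg1 hg2 using hex
  set G : ℝ := (Fintype.card ((Fin n → Bool) → ZMod M) : ℝ) with hG
  have hG0 : 0 < G := by
    rw [hG]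
    exact_mod_cast Fintype.card_pos
  set m : Fin n → (E →₀ ℝ) := fun i => ∑ x : (Fin n → Bool) → ZMod M,
    (Finsupp.single (ι x) (2 / (c * G) * (χ.f (ph i x)).im) -
      Finsupp.single (ι 0) (2 / (c * G) * (χ.f (ph i x)).im)) with hm
  have hmol : ∀ i (f : E → ℝ), mol (m i) f =
      2 / (c * G) * ∑ x, (f (ι x) - f (ι 0)) * (χ.f (ph i x)).im := by
    intro i f
    rw [hm]
    dsimp only
    rw [mol_sum_left, mul_sum]
    refine sum_congr rfl fun x _ => ?_
    rw [mol_sub_left, mol_single, mol_single]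
    ring
  refine ⟨m, g, hg1, fun i j => ?_, fun f => ?_⟩
  · rw [hmol]
    simp only [hg2]
    have h1 : ∑ x : (Fin n → Bool) → ZMod M, c * (χ.f (ph j x)).im * (χ.f (ph i x)).im =
        c * (if i = j then G / 2 else 0) := by
      rw [← χ.sum_im_mul_im hD i j, mul_sum]
      exact sum_congr rfl fun x _ => by ring
    rw [h1]
    split_ifs
    · field_simp
    · simp
  · set s : Fin n → ℝ := fun i => if 0 ≤ mol (m i) f then 1 else -1 with hs
    have hs1 : ∀ i, |s i| ≤ 1 := by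
      intro i
      rw [hs]
      dsimp only
      split_ifs <;> simp
    have hf1 : ∀ (ω : Fin n → Bool) x,
        |(f (ι (x + Pi.single ω 1)) - f (ι 0)) - (f (ι x) - f (ι 0))| ≤ ‖f‖ * (4 * D) := by
      intro ω x
      rw [sub_sub_sub_cancel_right]
      exact (sub_le_norm f _ _).trans (mul_le_mul_of_nonneg_left (hstep ω x) (norm_nonneg _))
    have hf2 : ∀ x, |f (ι x) - f (ι 0)| ≤ ‖f‖ * (4 * 2 ^ n) := fun x =>
      (sub_le_norm f _ _).trans (mul_le_mul_of_nonneg_left (hdiam x 0) (norm_nonneg _))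
    have hmain := χ.main_estimate hs1 (φ := fun x => f (ι x) - f (ι 0)) hf1 hf2 hD.le
    have habs : ∀ i, |mol (m i) f| = s i * mol (m i) f := by
      intro i
      by_cases h : 0 ≤ mol (m i) f
      · simp [hs, h, abs_of_nonneg]
      · simp [hs, h, abs_of_neg (not_le.1 h)]
    have h1 : ∑ i, |mol (m i) f| =
        2 / (c * G) * ∑ i, s i * ∑ x, (f (ι x) - f (ι 0)) * (χ.f (ph i x)).im := by
      rw [mul_sum]
      refine sum_congr rfl fun i _ => ?_
      rw [habs, hmol]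
      ring
    have h4n : (4:ℝ) ^ n * D ≤ 1 := by
      have := mul_le_mul_of_nonneg_left hDε (by positivity : (0:ℝ) ≤ 4 ^ n)
      rwa [mul_one_div_cancel (by positivity)] at this
    have h2 : D * ∑ i, s i * ∑ x, (f (ι x) - f (ι 0)) * (χ.f (ph i x)).im ≤
        D * (G * (8 * ‖f‖)) := by
      refine hmain.trans ?_
      have h3 : ‖f‖ * (4 * 2 ^ n) * (2 ^ n * D ^ 2) = ‖f‖ * 4 * D * (4 ^ n * D) := by
        have : (4:ℝ) ^ n = 2 ^ n * 2 ^ n := by rw [← mul_pow]; norm_num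
        rw [this]; ring
      rw [h3]
      have h5 : ‖f‖ * 4 * D * (4 ^ n * D) ≤ ‖f‖ * 4 * D * 1 :=
        mul_le_mul_of_nonneg_left h4n (by positivity)
      calc G * (‖f‖ * (4 * D) + ‖f‖ * 4 * D * (4 ^ n * D))
          ≤ G * (‖f‖ * (4 * D) + ‖f‖ * 4 * D * 1) :=
            mul_le_mul_of_nonneg_left (by linarith) hG0.le
        _ = D * (G * (8 * ‖f‖)) := by ring
    have h6 := le_of_mul_le_mul_left h2 hD
    rw [h1]
    calc 2 / (c * G) * ∑ i, s i * ∑ x, (f (ι x) - f (ι 0)) * (χ.f (ph i x)).im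
        ≤ 2 / (c * G) * (G * (8 * ‖f‖)) := mul_le_mul_of_nonneg_left h6 (by positivity)
      _ = 16 / c * ‖f‖ := by field_simp; ring

end Pool.Agent.H16.Lip
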