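import Pool.Agent.H16.Lip.Glue
import Pool.Agent.H16.Lip.Local

/-!
# Riesz products on a discrete torus

The coordinates are indexed by the sign patterns `ω : Fin n → Bool`.
-/

set_option autoImplicit false

open Finset

namespace Pool.Agent.H16.Lip

/-- Pairwise estimate for products of numbers of modulus at most one. -/
lemma norm_prod_sub_le {I : Type*} (s : Finset I) (a b : I → ℂ) (ha : ∀ i, ‖a i‖ ≤ 1)
    (hb : ∀ i, ‖b i‖ ≤ 1) : ‖∏ i ∈ s, a i - ∏ i ∈ s, b i‖ ≤ ∑ i ∈ s, ‖a i - b i‖ := by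
  classical
  induction s using Finset.induction_on with
  | empty => simp
  | insert i s hi ih =>
    rw [prod_insert hi, prod_insert hi, sum_insert hi]
    have e1 : a i * ∏ j ∈ s, a j - b i * ∏ j ∈ s, b j =
        (a i - b i) * ∏ j ∈ s, a j + b i * (∏ j ∈ s, a j - ∏ j ∈ s, b j) := by ring
    have h1 : ‖∏ j ∈ s, a j‖ ≤ 1 := by
      rw [norm_prod]
      exact prod_le_one (fun _ _ => norm_nonneg _) fun j _ => ha j
    rw [e1]
    refine (norm_add_le _ _).trans (add_le_add ?_ ?_)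
    · rw [norm_mul]
      calc ‖a i - b i‖ * ‖∏ j ∈ s, a j‖ ≤ ‖a i - b i‖ * 1 :=
            mul_le_mul_of_nonneg_left h1 (norm_nonneg _)
        _ = _ := mul_one _
    · rw [norm_mul]
      calc ‖b i‖ * ‖∏ j ∈ s, a j - ∏ j ∈ s, b j‖ ≤ 1 * ‖∏ j ∈ s, a j - ∏ j ∈ s, b j‖ :=
            mul_le_mul_of_nonneg_right (hb i) (norm_nonneg _)
        _ ≤ _ := by rw [one_mul]; exact ih

/-- The first order expansion of a product. -/
lemma prod_expand {I : Type*} (s : Finset I) (y : I → ℝ) {d : ℝ} (hd0 : 0 ≤ d) (hd1 : d ≤ 1)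
    (hy : ∀ i, |y i| ≤ d) :
    |∏ i ∈ s, (1 + y i) - 1| ≤ (2 ^ s.card - 1) * d ∧
      |∏ i ∈ s, (1 + y i) - 1 - ∑ i ∈ s, y i| ≤ 2 ^ s.card * d ^ 2 := by
  classical
  induction s using Finset.induction_on with
  | empty => simp; positivity
  | insert i s hi ih =>
    obtain ⟨h1, h2⟩ := ih
    rw [prod_insert hi, sum_insert hi, card_insert_of_notMem hi]
    have hp : |∏ i ∈ s, (1 + y i)| ≤ 2 ^ s.card := by
      calc |∏ i ∈ s, (1 + y i)| = |(∏ i ∈ s, (1 + y i) - 1) + 1| := by ring_nf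
        _ ≤ |∏ i ∈ s, (1 + y i) - 1| + |(1:ℝ)| := abs_add_le _ _
        _ ≤ (2 ^ s.card - 1) * d + 1 := by rw [abs_one]; linarith
        _ ≤ (2 ^ s.card - 1) * 1 + 1 := by
            have : (0:ℝ) ≤ 2 ^ s.card - 1 := by
              have := one_le_pow₀ (M₀ := ℝ) (a := 2) (n := s.card) (by norm_num)
              linarith
            have := mul_le_mul_of_nonneg_left hd1 this
            linarith
        _ = 2 ^ s.card := by ring
    constructor
    · have e1 : (1 + y i) * ∏ i ∈ s, (1 + y i) - 1 =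
          (∏ i ∈ s, (1 + y i) - 1) + y i * ∏ i ∈ s, (1 + y i) := by ring
      rw [e1]
      refine (abs_add_le _ _).trans ?_
      rw [abs_mul]
      have h3 : |y i| * |∏ i ∈ s, (1 + y i)| ≤ d * 2 ^ s.card :=
        mul_le_mul (hy i) hp (abs_nonneg _) hd0
      rw [pow_succ]
      linarith
    · have e1 : (1 + y i) * ∏ i ∈ s, (1 + y i) - 1 - (y i + ∑ i ∈ s, y i) =
          (∏ i ∈ s, (1 + y i) - 1 - ∑ i ∈ s, y i) + y i * (∏ i ∈ s, (1 + y i) - 1) := by ring
      rw [e1]
      refine (abs_add_le _ _).trans ?_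
      rw [abs_mul]
      have h3 : |y i| * |∏ i ∈ s, (1 + y i) - 1| ≤ d * ((2 ^ s.card - 1) * d) :=
        mul_le_mul (hy i) h1 (abs_nonneg _) hd0
      rw [pow_succ]
      nlinarith [sq_nonneg d]

/-- The average over all sign patterns of a product. -/
lemma sum_signs_prod (n : ℕ) (α β : Fin n → ℝ) :
    ∑ ω : Fin n → Bool, ∏ i, (α i + bs (ω i) * β i) = 2 ^ n * ∏ i, α i := by
  have h := Finset.prod_univ_sum (fun _ : Fin n => (univ : Finset Bool))
    (fun i b => α i + bs b * β i)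
  rw [Fintype.piFinset_univ] at h
  rw [← h]
  have h2 : ∀ i, ∑ b : Bool, (α i + bs b * β i) = 2 * α i := by
    intro i
    simp only [Fintype.sum_bool, bs_true, bs_false]
    ring
  rw [prod_congr rfl fun i _ => h2 i, prod_mul_distrib]
  simp

/-- The data of the construction: a character of `ZMod M`. -/
structure Chr (M : ℕ) where
  /-- the character -/
  f : ZMod M → ℂ
  add : ∀ a b, f (a + b) = f a * f b
  nrm : ∀ a, ‖f a‖ = 1
  neg : ∀ a, f (-a) = (starRingEnd ℂ) (f a)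
  zero : f 0 = 1

variable {n M : ℕ}

/-- Signed element. -/
def zs (b : Bool) (a : ZMod M) : ZMod M := if b then a else -a

/-- The phases. -/
def ph (i : Fin n) (x : (Fin n → Bool) → ZMod M) : ZMod M := ∑ ω, zs (ω i) (x ω)

lemma zs_add (b : Bool) (a c : ZMod M) : zs b (a + c) = zs b a + zs b c := by
  cases b
  · simp [zs]; ring
  · simp [zs]

lemma ph_add (i : Fin n) (x y : (Fin n → Bool) → ZMod M) : ph i (x + y) = ph i x + ph i y := by
  unfold ph
  rw [← sum_add_distrib]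
  exact sum_congr rfl fun ω _ => zs_add _ _ _

lemma ph_zero (i : Fin n) : ph i (0 : (Fin n → Bool) → ZMod M) = 0 := by
  unfold ph
  apply sum_eq_zero
  intro ω _
  simp [zs]

lemma ph_single (i : Fin n) (ω : Fin n → Bool) (a : ZMod M) :
    ph i (Pi.single ω a) = zs (ω i) a := by
  unfold ph
  rw [sum_eq_single ω]
  · rw [Pi.single_eq_same]
  · intro ω' _ h
    rw [Pi.single_eq_of_ne h]
    simp [zs]
  · simp

namespace Chr

variable (χ : Chr M)

lemma sum {I : Type*} (s : Finset I) (a : I → ZMod M) :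
    χ.f (∑ i ∈ s, a i) = ∏ i ∈ s, χ.f (a i) := by
  classical
  induction s using Finset.induction_on with
  | empty => simp [χ.zero]
  | insert i s hi ih => rw [sum_insert hi, prod_insert hi, χ.add, ih]

lemma re_zs (b : Bool) (a : ZMod M) : (χ.f (zs b a)).re = (χ.f a).re := by
  cases b
  · simp [zs, χ.neg]
  · simp [zs]

lemma im_zs (b : Bool) (a : ZMod M) : (χ.f (zs b a)).im = bs b * (χ.f a).im := by
  cases b
  · simp [zs, χ.neg]
  · simp [zs]

lemma norm_zs_sub (b : Bool) (a c : ZMod M) :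
    ‖χ.f (zs b a) - χ.f (zs b c)‖ = ‖χ.f a - χ.f c‖ := by
  cases b
  · simp only [zs, Bool.false_eq_true, if_false]
    rw [χ.neg, χ.neg, ← _root_.map_sub, Complex.norm_conj]
  · simp [zs]

lemma ph_sub_le (i : Fin n) (x y : (Fin n → Bool) → ZMod M) :
    ‖χ.f (ph i x) - χ.f (ph i y)‖ ≤ ∑ ω, ‖χ.f (x ω) - χ.f (y ω)‖ := by
  unfold ph
  rw [χ.sum, χ.sum]
  refine (norm_prod_sub_le _ _ _ (fun _ => (χ.nrm _).le) fun _ => (χ.nrm _).le).trans ?_
  exact sum_le_sum fun ω _ => (χ.norm_zs_sub _ _ _).le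

variable [NeZero M]

/-- Sums of `f (ψ x)` vanish when some shift multiplies by a nontrivial number. -/
lemma sum_eq_zero (g : ((Fin n → Bool) → ZMod M) → ℂ) (y : (Fin n → Bool) → ZMod M) (w : ℂ)
    (hw : w ≠ 1) (hg : ∀ x, g (x + y) = w * g x) : ∑ x, g x = 0 := by
  have h1 : ∑ x, g (x + y) = ∑ x, g x := Equiv.sum_comp (Equiv.addRight y) g
  simp only [hg, ← mul_sum] at h1
  have h2 : (w - 1) * ∑ x, g x = 0 := by rw [sub_mul, one_mul, h1, sub_self]
  exact (mul_eq_zero.1 h2).resolve_left (sub_ne_zero.2 hw)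

omit [NeZero M] in
lemma two_ne (hD : 0 < (χ.f 1).im) : χ.f 2 ≠ 1 := by
  intro h
  have h1 : χ.f 2 = χ.f 1 * χ.f 1 := by rw [← χ.add]; norm_num
  rw [h1] at h
  have hre := congrArg Complex.re h
  have him := congrArg Complex.im h
  simp only [Complex.mul_re, Complex.mul_im, Complex.one_re, Complex.one_im] at hre him
  have h3 : (χ.f 1).re = 0 := by
    have : (χ.f 1).re * (χ.f 1).im = 0 := by linarith
    exact (mul_eq_zero.1 this).resolve_right hD.ne'
  rw [h3] at hre
  nlinarith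

/-- Orthogonality of the phases. -/
lemma sum_im_mul_im (hD : 0 < (χ.f 1).im) (i j : Fin n) :
    ∑ x : (Fin n → Bool) → ZMod M, (χ.f (ph i x)).im * (χ.f (ph j x)).im =
      if i = j then (Fintype.card ((Fin n → Bool) → ZMod M) : ℝ) / 2 else 0 := by
  have hplus : ∑ x : (Fin n → Bool) → ZMod M, χ.f (ph i x) * χ.f (ph j x) = 0 := by
    apply sum_eq_zero _ (Pi.single (fun _ => true) 1) (χ.f 2) (χ.two_ne hD)
    intro x
    rw [ph_add, ph_add, ph_single, ph_single, χ.add, χ.add]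
    simp only [zs, if_true]
    have h1 : χ.f 2 = χ.f 1 * χ.f 1 := by rw [← χ.add]; norm_num
    rw [h1]; ring
  have hminus : ∑ x : (Fin n → Bool) → ZMod M, χ.f (ph i x) * (starRingEnd ℂ) (χ.f (ph j x)) =
      if i = j then (Fintype.card ((Fin n → Bool) → ZMod M) : ℂ) else 0 := by
    split_ifs with hij
    · subst hij
      have : ∀ x : (Fin n → Bool) → ZMod M,
          χ.f (ph i x) * (starRingEnd ℂ) (χ.f (ph i x)) = 1 := by
        intro x
        rw [Complex.mul_conj, Complex.normSq_eq_norm_sq, χ.nrm]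
        norm_num
      simp only [this, sum_const, card_univ, nsmul_eq_mul, mul_one]
    · apply sum_eq_zero _ (Pi.single (fun k => decide (k = i)) 1) (χ.f 2) (χ.two_ne hD)
      intro x
      rw [ph_add, ph_add, ph_single, ph_single, χ.add, χ.add]
      have hji : decide (j = i) = false := by simp [Ne.symm hij]
      simp only [zs, decide_true, if_true, hji, Bool.false_eq_true, if_false, _root_.map_mul]
      rw [χ.neg, Complex.conj_conj]
      have h1 : χ.f 2 = χ.f 1 * χ.f 1 := by rw [← χ.add]; norm_num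
      rw [h1]; ring
  have key : ∀ x : (Fin n → Bool) → ZMod M, (χ.f (ph i x)).im * (χ.f (ph j x)).im =
      ((χ.f (ph i x) * (starRingEnd ℂ) (χ.f (ph j x))).re -
        (χ.f (ph i x) * χ.f (ph j x)).re) / 2 := by
    intro x
    simp only [Complex.mul_re, Complex.conj_re, Complex.conj_im]
    ring
  simp only [key]
  rw [← sum_div, sum_sub_distrib, ← Complex.re_sum, ← Complex.re_sum, hplus, hminus]
  split_ifs
  · rw [Complex.zero_re, sub_zero, Complex.natCast_re]
  · simp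

/-- The Riesz product in the direction `ω`. -/
noncomputable def riesz (s : Fin n → ℝ) (ω : Fin n → Bool) (x : (Fin n → Bool) → ZMod M) : ℝ :=
  ∏ i, (1 + bs (ω i) * (s i * (χ.f (ph i x)).re))

omit [NeZero M] in
lemma abs_re_le (a : ZMod M) : |(χ.f a).re| ≤ 1 := by
  rw [← χ.nrm a]; exact Complex.abs_re_le_norm _

omit [NeZero M] in
lemma abs_im_le (a : ZMod M) : |(χ.f a).im| ≤ 1 := by
  rw [← χ.nrm a]; exact Complex.abs_im_le_norm _

omit [NeZero M] in
lemma riesz_nonneg {s : Fin n → ℝ} (hs : ∀ i, |s i| ≤ 1) (ω : Fin n → Bool)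
    (x : (Fin n → Bool) → ZMod M) : 0 ≤ χ.riesz s ω x := by
  unfold riesz
  apply prod_nonneg
  intro i _
  have h : |bs (ω i) * (s i * (χ.f (ph i x)).re)| ≤ 1 := by
    rw [abs_mul, abs_bs, one_mul, abs_mul]
    calc |s i| * |(χ.f (ph i x)).re| ≤ 1 * 1 :=
          mul_le_mul (hs i) (χ.abs_re_le _) (abs_nonneg _) zero_le_one
      _ = 1 := one_mul 1
  linarith [(abs_le.1 h).1]

omit [NeZero M] in
lemma sum_riesz (s : Fin n → ℝ) (x : (Fin n → Bool) → ZMod M) :
    ∑ ω, χ.riesz s ω x = 2 ^ n := by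
  unfold riesz
  rw [sum_signs_prod]
  simp

omit [NeZero M] in
lemma sum_riesz_shift (s : Fin n → ℝ) (x : (Fin n → Bool) → ZMod M) :
    ∑ ω : Fin n → Bool, χ.riesz s ω (x - Pi.single ω 1) =
      2 ^ n * ∏ i, (1 + s i * (χ.f 1).im * (χ.f (ph i x)).im) := by
  unfold riesz
  rw [← sum_signs_prod n (fun i => 1 + s i * (χ.f 1).im * (χ.f (ph i x)).im)
    (fun i => s i * (χ.f 1).re * (χ.f (ph i x)).re)]
  refine sum_congr rfl fun ω _ => prod_congr rfl fun i _ => ?_
  have h1 : ph i (x - Pi.single ω 1) = ph i x + zs (ω i) (-1) := by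
    rw [sub_eq_add_neg, ph_add, ← Pi.single_neg, ph_single]
  have h2 : (χ.f (ph i (x - Pi.single ω 1))).re =
      (χ.f 1).re * (χ.f (ph i x)).re + bs (ω i) * ((χ.f 1).im * (χ.f (ph i x)).im) := by
    rw [h1, χ.add, Complex.mul_re, χ.re_zs, χ.im_zs, χ.neg, Complex.conj_re, Complex.conj_im]
    ring
  have h3 : bs (ω i) * bs (ω i) = 1 := by cases ω i <;> simp [bs]
  rw [h2]
  linear_combination (s i * (χ.f 1).im * (χ.f (ph i x)).im) * h3

/-- The divergence identity. -/
lemma riesz_identity (s : Fin n → ℝ) (φ : ((Fin n → Bool) → ZMod M) → ℝ) :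
    2 ^ n * ∑ x, φ x * (∏ i, (1 + s i * (χ.f 1).im * (χ.f (ph i x)).im) - 1) =
      ∑ ω : Fin n → Bool, ∑ x, (φ (x + Pi.single ω 1) - φ x) * χ.riesz s ω x := by
  have h1 : ∀ ω : Fin n → Bool, ∑ x, (φ (x + Pi.single ω 1) - φ x) * χ.riesz s ω x =
      ∑ x, φ x * (χ.riesz s ω (x - Pi.single ω 1) - χ.riesz s ω x) := by
    intro ω
    simp only [sub_mul, mul_sub, sum_sub_distrib]
    congr 1
    have h := Equiv.sum_comp (Equiv.addRight (Pi.single ω 1 : (Fin n → Bool) → ZMod M))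
      (fun x => φ x * χ.riesz s ω (x - Pi.single ω 1))
    simp only [Equiv.coe_addRight, add_sub_cancel_right] at h
    exact h
  simp only [h1]
  rw [sum_comm, mul_sum]
  refine sum_congr rfl fun x _ => ?_
  rw [← mul_sum, sum_sub_distrib, χ.sum_riesz, χ.sum_riesz_shift]
  ring

/-- The main estimate. -/
lemma main_estimate {s : Fin n → ℝ} (hs : ∀ i, |s i| ≤ 1) {φ : ((Fin n → Bool) → ZMod M) → ℝ}
    {η B : ℝ} (hη : ∀ (ω : Fin n → Bool) x, |φ (x + Pi.single ω 1) - φ x| ≤ η)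
    (hB : ∀ x, |φ x| ≤ B) (hD : 0 ≤ (χ.f 1).im) :
    (χ.f 1).im * ∑ i, s i * ∑ x, φ x * (χ.f (ph i x)).im ≤
      (Fintype.card ((Fin n → Bool) → ZMod M)) * (η + B * (2 ^ n * (χ.f 1).im ^ 2)) := by
  set D := (χ.f 1).im with hDdef
  have hD1 : D ≤ 1 := (abs_le.1 (χ.abs_im_le 1)).2
  have h2n : (0:ℝ) < 2 ^ n := by positivity
  have hη0 : 0 ≤ η := (abs_nonneg _).trans (hη (fun _ => true) 0)
  -- the product term
  have hP : ∑ x, φ x * (∏ i, (1 + s i * D * (χ.f (ph i x)).im) - 1) ≤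
      (Fintype.card ((Fin n → Bool) → ZMod M)) * η := by
    have h1 := χ.riesz_identity s φ
    have h2 : ∑ ω : Fin n → Bool, ∑ x, (φ (x + Pi.single ω 1) - φ x) * χ.riesz s ω x ≤
        2 ^ n * ((Fintype.card ((Fin n → Bool) → ZMod M)) * η) := by
      calc ∑ ω : Fin n → Bool, ∑ x, (φ (x + Pi.single ω 1) - φ x) * χ.riesz s ω x
          ≤ ∑ ω : Fin n → Bool, ∑ x, η * χ.riesz s ω x := by
            refine sum_le_sum fun ω _ => sum_le_sum fun x _ => ?_
            exact mul_le_mul_of_nonneg_right ((le_abs_self _).trans (hη ω x))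
              (χ.riesz_nonneg hs ω x)
        _ = ∑ x : (Fin n → Bool) → ZMod M, η * 2 ^ n := by
            rw [sum_comm]
            refine sum_congr rfl fun x _ => ?_
            rw [← mul_sum, χ.sum_riesz]
        _ = _ := by
            rw [sum_const, card_univ, nsmul_eq_mul]; ring
    rw [← h1] at h2
    exact le_of_mul_le_mul_left h2 h2n
  -- the error term
  have hE : ∀ x, |∏ i, (1 + s i * D * (χ.f (ph i x)).im) - 1 -
      ∑ i, s i * D * (χ.f (ph i x)).im| ≤ 2 ^ n * D ^ 2 := by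
    intro x
    have := (prod_expand (univ : Finset (Fin n)) (fun i => s i * D * (χ.f (ph i x)).im) hD hD1
      (fun i => by
        rw [abs_mul, abs_mul, abs_of_nonneg hD]
        calc |s i| * D * |(χ.f (ph i x)).im| ≤ 1 * D * 1 :=
              mul_le_mul (mul_le_mul_of_nonneg_right (hs i) hD) (χ.abs_im_le _)
                (abs_nonneg _) (by linarith)
          _ = D := by ring)).2
    simpa using this
  have hB0 : 0 ≤ B := (abs_nonneg _).trans (hB 0)
  have key : D * ∑ i, s i * ∑ x, φ x * (χ.f (ph i x)).im =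
      ∑ x, φ x * (∏ i, (1 + s i * D * (χ.f (ph i x)).im) - 1) -
        ∑ x, φ x * (∏ i, (1 + s i * D * (χ.f (ph i x)).im) - 1 -
          ∑ i, s i * D * (χ.f (ph i x)).im) := by
    rw [← sum_sub_distrib]
    have : ∀ x, φ x * (∏ i, (1 + s i * D * (χ.f (ph i x)).im) - 1) -
        φ x * (∏ i, (1 + s i * D * (χ.f (ph i x)).im) - 1 -
          ∑ i, s i * D * (χ.f (ph i x)).im) = ∑ i, D * (s i * (φ x * (χ.f (ph i x)).im)) := by
      intro x
      rw [← mul_sub, sub_sub_cancel, mul_sum]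
      exact sum_congr rfl fun i _ => by ring
    simp only [this]
    rw [sum_comm, mul_sum]
    refine sum_congr rfl fun i _ => ?_
    rw [← mul_sum, ← mul_sum]
  have hE2 : |∑ x, φ x * (∏ i, (1 + s i * D * (χ.f (ph i x)).im) - 1 -
      ∑ i, s i * D * (χ.f (ph i x)).im)| ≤
      (Fintype.card ((Fin n → Bool) → ZMod M)) * (B * (2 ^ n * D ^ 2)) := by
    refine (abs_sum_le_sum_abs _ _).trans ?_
    calc ∑ x, |φ x * (∏ i, (1 + s i * D * (χ.f (ph i x)).im) - 1 -
          ∑ i, s i * D * (χ.f (ph i x)).im)|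
        ≤ ∑ _x : (Fin n → Bool) → ZMod M, B * (2 ^ n * D ^ 2) := by
          refine sum_le_sum fun x _ => ?_
          rw [abs_mul]
          exact mul_le_mul (hB x) (hE x) (abs_nonneg _) hB0
      _ = _ := by rw [sum_const, card_univ, nsmul_eq_mul]
  rw [key]
  have := (abs_le.1 hE2).1
  linarith

end Chr

end Pool.Agent.H16.Lip
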